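import Pool.Agent.W108.KS.OFDK3

set_option autoImplicit false

/-!
KS project, task OFDK (helper108): the off-diagonal terms.
-/

namespace Pool.Agent.W108.KS

open Finset
open Pool.Agent.H442R2
open Pool.Agent.H442R2.KF
open Pool.Agent.H442R2.BX
open Pool.Agent.H442R2.BX.TaskEX
open Pool.Agent.W23.DC
open Pool.Agent.W23.SG
open Pool.Agent.W23.PL
open Pool.Agent.W23.KT
open Pool.Agent.W23.KS
open Pool.Agent.W372.PL (SI co Ev_eq sqf_lcm II_nonneg II_le_one mem_roughs roughs_sub sum_II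
  card_roughs harm Ev_abs_le Ev_le_tau nuS_le_tau tsW1)

/-- the trivial bound -/
theorem triv (N z D X : ℕ) (hN : 1 ≤ N) (hz : z ≤ N) (hDN : D ≤ N) (hX : X ≤ N)
    (P P' : Finset ℕ)
    (lam th th' : ℕ → ℝ) (hl : ∀ q, |lam q| ≤ 1) (hth : DW P D (Real.log N) th)
    (hth' : DW P' D (Real.log N) th') (S S' : Finset (ℤ × ℕ)) (C₁ : ℝ) (hC₁ : 0 ≤ C₁)
    (r r' : ℤ → ℝ) (hr : ∀ n, |r n| ≤ X * (1 + C₁)) (hr' : ∀ n, |r' n| ≤ X * (1 + C₁)) :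
    |∑' n : ℤ, Wt N n * nuS lam z n * (Ev th D (Fp S n) * Ev th' D (Fp S' n)) *
      (r n * r' n)| ≤ (∑' n : ℤ, Wt N n) * ((N : ℝ) ^ 8 * (1 + C₁) ^ 2) := by
  have h1 := (KF.TaskS.summable_Wt N hN).hasSum.mul_right ((N : ℝ) ^ 8 * (1 + C₁) ^ 2)
  rw [← Real.norm_eq_abs]
  refine tsum_of_norm_bounded h1 fun n => ?_
  have hzN : (z : ℝ) ≤ N := by exact_mod_cast hz
  have hDN' : (D : ℝ) ≤ N := by exact_mod_cast hDN
  have hXN : (X : ℝ) ≤ N := by exact_mod_cast hX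
  have hN0 : (0 : ℝ) ≤ N := by positivity
  have hlog : 0 ≤ Real.log N := Real.log_natCast_nonneg N
  have hlogN : Real.log N ≤ N := by
    have := Real.log_le_sub_one_of_pos (by exact_mod_cast hN : (0 : ℝ) < N)
    linarith
  have h2 := G_crude z D (Real.log N) P P' lam th th' hl hth hth' n (Fp S n) (Fp S' n)
  have hXC : X * (1 + C₁) ≤ N * (1 + C₁) := mul_le_mul_of_nonneg_right hXN (by linarith)
  have h3 : |r n| ≤ N * (1 + C₁) := (hr n).trans hXC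
  have h4 : |r' n| ≤ N * (1 + C₁) := (hr' n).trans hXC
  have hW := (Wt_pos N n).le
  have e0 : Wt N n * nuS lam z n * (Ev th D (Fp S n) * Ev th' D (Fp S' n)) * (r n * r' n) =
      Wt N n * ((nuS lam z n * (Ev th D (Fp S n) * Ev th' D (Fp S' n))) * (r n * r' n)) := by
    ring
  rw [e0, Real.norm_eq_abs, abs_mul, abs_of_nonneg hW, abs_mul, abs_mul (r n)]
  refine mul_le_mul_of_nonneg_left ?_ hW
  calc |nuS lam z n * (Ev th D (Fp S n) * Ev th' D (Fp S' n))| * (|r n| * |r' n|)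
      ≤ ((z : ℝ) ^ 2 * (D : ℝ) ^ 2 * Real.log N ^ 2) * ((N * (1 + C₁)) * (N * (1 + C₁))) :=
        mul_le_mul h2 (mul_le_mul h3 h4 (abs_nonneg _) (by positivity)) (by positivity)
          (by positivity)
    _ ≤ ((N : ℝ) ^ 2 * (N : ℝ) ^ 2 * (N : ℝ) ^ 2) * ((N * (1 + C₁)) * (N * (1 + C₁))) := by
        refine mul_le_mul_of_nonneg_right ?_ (by positivity)
        refine mul_le_mul (mul_le_mul (pow_le_pow_left₀ (by positivity) hzN 2)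
          (pow_le_pow_left₀ (by positivity) hDN' 2) (by positivity) (by positivity))
          (pow_le_pow_left₀ hlog hlogN 2) (by positivity) (by positivity)
    _ = (N : ℝ) ^ 8 * (1 + C₁) ^ 2 := by ring

theorem OFDK (hTTCK : St_TTCK) (hPBK : St_PBK) (_hRSK : St_RSK) (_hGS : BX.St_GS)
    (_hRB : BX.St_RB) : St_OFDK := by
  classical
  intro k M hk
  refine ⟨1 / 1000, by norm_num, by norm_num, ?_⟩
  intro ε₁ hε₁ hε₁1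
  have hε : 0 < ε₁ / 2 := by positivity
  obtain ⟨N₁, hTT⟩ := hTTCK
  obtain ⟨N₂, C0, hC0, hPB⟩ := hPBK k M (ε₁ / 2) hε
  obtain ⟨m, hm⟩ : ∃ m : ℕ, m = (M + 1) * k := ⟨_, rfl⟩
  have hm1 : 1 ≤ m := by rw [hm]; exact Nat.mul_pos (Nat.succ_pos M) hk
  have hm0 : (0 : ℝ) < m := by exact_mod_cast hm1
  obtain ⟨κ, hκ, hk1, hk2⟩ : ∃ κ : ℝ, 0 < κ ∧ κ ≤ ε₁ / 64 ∧ κ ≤ 1 / 1000 :=
    ⟨min (ε₁ / 64) (1 / 1000), lt_min (by positivity) (by norm_num), min_le_left _ _,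
      min_le_right _ _⟩
  have hκm : (m : ℝ) * (κ / m) = κ := by field_simp
  obtain ⟨Cτ, hCτ, hτ⟩ := Pool.Agent.H510R2.divisor_bound (κ / m) (by positivity)
  obtain ⟨η, hη, hh1, hh2⟩ : ∃ η : ℝ, 0 < η ∧ η ≤ ε₁ / 8 ∧ η ≤ 1 / 200 :=
    ⟨min (ε₁ / 8) (1 / 200), lt_min (by positivity) (by norm_num), min_le_left _ _,
      min_le_right _ _⟩
  obtain ⟨C₁, hC₁def⟩ : ∃ C₁ : ℝ, C₁ = ((k : ℝ) + 1) ^ (1 / (ε₁ / 2)) := ⟨_, rfl⟩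
  have hC₁0 : 0 < C₁ := by
    rw [hC₁def]
    have : (0 : ℝ) ≤ k := by positivity
    positivity
  obtain ⟨N₀, hN₀⟩ : ∃ N₀ : ℕ, N₀ = max N₁ N₂ := ⟨_, rfl⟩
  obtain ⟨Bs, hBs⟩ : ∃ Bs : ℝ, Bs = ∑ N ∈ range N₀,
    (∑' n : ℤ, Wt N n) * ((N : ℝ) ^ 8 * (1 + C₁) ^ 2) := ⟨_, rfl⟩
  have hWs : ∀ N : ℕ, 0 ≤ (∑' n : ℤ, Wt N n) * ((N : ℝ) ^ 8 * (1 + C₁) ^ 2) := fun N =>
    mul_nonneg (tsum_nonneg fun n => (Wt_pos N n).le) (by positivity)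
  have hBs0 : 0 ≤ Bs := by rw [hBs]; exact Finset.sum_nonneg fun N _ => hWs N
  obtain ⟨Lg, hLg⟩ : ∃ Lg : ℝ, Lg = 1 + 1 / κ := ⟨_, rfl⟩
  have hLg0 : 0 < Lg := by rw [hLg]; positivity
  obtain ⟨Cb, hCb⟩ : ∃ Cb : ℝ, Cb = 4 * C₁ ^ 2 / κ ^ 2 +
    (2 * k + 1) * (2 * (1 + C₁) ^ 2 / κ ^ 2) +
    2 * (Cτ ^ 4 / κ ^ 2) * (12 * (C0 ^ 2 * ((k : ℝ) ^ 2 * (((2 * M + 1 : ℕ) : ℝ) / (ε₁ / 2)))) +
      12 * (C₁ * Lg * (2 * C0 + C₁ * Lg) / (ε₁ / 2))) := ⟨_, rfl⟩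
  have hCb0 : 0 < Cb := by rw [hCb]; positivity
  refine ⟨η, Bs + Cb, hη, by positivity, ?_⟩
  intro N z D X hN hzN hzε hDN hXdef lam hlam S S' hSK hSK' hdis P P' hP hP' th th' hth hth' hp
    hp' c c' hc hc' hcB hcB'
  have hS := hSK.sys
  have hS' := hSK'.sys
  have hN0 : (0 : ℝ) < N := by exact_mod_cast (by omega : 0 < N)
  have hN1 : (1 : ℝ) ≤ N := by exact_mod_cast (by omega : 1 ≤ N)
  have hN1' : 1 ≤ N := by omega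
  have hNle : ∀ s t : ℝ, s ≤ t → (N : ℝ) ^ s ≤ (N : ℝ) ^ t := fun s t hst =>
    Real.rpow_le_rpow_of_exponent_le hN1 hst
  have hXθ : (X : ℝ) ≤ (N : ℝ) ^ (49 / 100 : ℝ) := by
    rw [hXdef]
    exact Nat.floor_le (by positivity)
  have hleN : ∀ (j : ℕ) (s : ℝ), s ≤ 1 → (j : ℝ) ≤ (N : ℝ) ^ s → j ≤ N := by
    intro j s hs hj
    have h1 : (j : ℝ) ≤ N := by
      calc (j : ℝ) ≤ (N : ℝ) ^ s := hj
        _ ≤ (N : ℝ) ^ (1 : ℝ) := hNle _ _ hs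
        _ = N := Real.rpow_one _
    exact_mod_cast h1
  have hzN' : z ≤ N := hleN z _ (by norm_num) hzN
  have hDN' : D ≤ N := hleN D _ (by norm_num) hDN
  have hXN' : X ≤ N := hleN X _ (by norm_num) hXθ
  have hNη : (1 : ℝ) ≤ (N : ℝ) ^ (1 - η) := Real.one_le_rpow hN1 (by linarith)
  have hw : ∀ d ∈ roughs ((N : ℝ) ^ (ε₁ / 2)) X, kw k d ≤ C₁ := by
    intro d hd
    obtain ⟨⟨h1, h2⟩, h3⟩ := mem_roughs.1 hd
    rw [hC₁def]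
    exact Pool.Agent.W82.KT.kw_le k hε hN h1 (h2.trans hXN') h3.2
  by_cases hsmall : N < N₀
  · -- small N
    have h1 := triv N z D X hN1' hzN' hDN' hXN' P P' lam th th' hlam.sw.bd hth hth' S S' C₁
      hC₁0.le (rK k c X S) (rK k c' X S') (fun n => rK_bd hC₁0.le hw hc)
      (fun n => rK_bd hC₁0.le hw hc')
    have h2 : (∑' n : ℤ, Wt N n) * ((N : ℝ) ^ 8 * (1 + C₁) ^ 2) ≤ Bs := by
      rw [hBs]
      exact Finset.single_le_sum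
        (f := fun N : ℕ => (∑' n : ℤ, Wt N n) * ((N : ℝ) ^ 8 * (1 + C₁) ^ 2))
        (fun N _ => hWs N) (Finset.mem_range.2 hsmall)
    calc _ ≤ Bs := h1.trans h2
      _ ≤ Bs + Cb := by linarith
      _ ≤ (Bs + Cb) * (N : ℝ) ^ (1 - η) := le_mul_of_one_le_right (by positivity) hNη
  push Not at hsmall
  rw [hN₀] at hsmall
  have hNN1 : N₁ ≤ N := (le_max_left _ _).trans hsmall
  have hNN2 : N₂ ≤ N := (le_max_right _ _).trans hsmall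
  have hlogpos : 0 < Real.log N := Real.log_pos (by exact_mod_cast (by omega : 1 < N))
  -- prime factors of the moduli
  have hpf : ∀ (V : Finset (ℤ × ℕ)) (d : ℕ), BlK N ε₁ V d → ∀ p : ℕ, p.Prime → p ∣ d →
      (N : ℝ) ^ ε₁ ≤ p := by
    intro V d hd p hpp hpd
    have h1 := hd.2 p hpp hpd
    have hp0 : (0 : ℝ) < p := by exact_mod_cast hpp.pos
    unfold tt at h1
    rw [le_div_iff₀ hlogpos] at h1
    rw [Real.rpow_def_of_pos hN0, ← Real.exp_log hp0]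
    exact Real.exp_le_exp.2 (by linarith)
  -- the coprime pairs
  have hcop : |∑' n : ℤ, Wt N n * nuS lam z n * (Ev th D (Fp S n) * Ev th' D (Fp S' n)) *
      Mc k c c' X (Fp S) (Fp S') n| ≤
      (z : ℝ) ^ 2 * (D : ℝ) ^ 2 * Real.log N ^ 2 * ((N : ℝ) ^ (4 / 1000 : ℝ) * (4 * C₁ ^ 2)) := by
    refine cop_part k N z D X hN1' (Real.log N) (4 * C₁ ^ 2) ((N : ℝ) ^ (4 / 1000 : ℝ))
      hlogpos.le (by positivity) (by positivity) lam th th' hlam.sw.bd hth.bd hth'.bd (Fp S)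
      (Fp S') (per_Fp S) (per_Fp S') c c' ?_
    intro q₁ hq₁ q₂ hq₂ e he e' he' hl₁ hl₂ he0 he0'
    obtain ⟨h11, h12, h13⟩ := hlam.sw.supp q₁ hl₁
    obtain ⟨h21, h22, h23⟩ := hlam.sw.supp q₂ hl₂
    obtain ⟨hk1s, hk1D, hk1P⟩ := hth.supp e he0
    obtain ⟨hk2s, hk2D, hk2P⟩ := hth'.supp e' he0'
    have hQd : Nat.lcm (Nat.lcm q₁ q₂) (Nat.lcm e e') ∣ (q₁ * q₂) * (e * e') :=
      (Nat.lcm_dvd_mul _ _).trans (mul_dvd_mul (Nat.lcm_dvd_mul q₁ q₂) (Nat.lcm_dvd_mul e e'))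
    have hQ1 : 1 ≤ Nat.lcm (Nat.lcm q₁ q₂) (Nat.lcm e e') :=
      Nat.lcm_pos (Nat.lcm_pos (Finset.mem_Icc.1 hq₁).1 (Finset.mem_Icc.1 hq₂).1)
        (Nat.lcm_pos (Finset.mem_Icc.1 he).1 (Finset.mem_Icc.1 he').1)
    generalize Nat.lcm (Nat.lcm q₁ q₂) (Nat.lcm e e') = Q at hQd hQ1
    -- prime factors of Q
    have hQp : ∀ p : ℕ, p.Prime → p ∣ Q → (p : ℝ) < (N : ℝ) ^ ε₁ := by
      intro p hpp hpQ
      have hz' : ∀ q : ℕ, 1 ≤ q → q ≤ z → p ∣ q → (p : ℝ) < (N : ℝ) ^ ε₁ := by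
        intro q hq1 hqz hpq
        have h3 : p ≤ z := (Nat.le_of_dvd (by omega) hpq).trans hqz
        have h4 : (p : ℝ) ≤ z := by exact_mod_cast h3
        linarith
      rcases (Nat.Prime.dvd_mul hpp).1 (hpQ.trans hQd) with h | h
      · rcases (Nat.Prime.dvd_mul hpp).1 h with h | h
        · exact hz' q₁ h11 h12 h
        · exact hz' q₂ h21 h22 h
      · rcases (Nat.Prime.dvd_mul hpp).1 h with h | h
        · exact (hP p (hk1P p hpp h)).2.1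
        · exact (hP' p (hk2P p hpp h)).2.1
    have hQle : (Q : ℝ) ≤ (N : ℝ) ^ (4 / 1000 : ℝ) := by
      have h1 : Q ≤ (q₁ * q₂) * (e * e') := Nat.le_of_dvd (by
        have : 0 < e := Nat.pos_of_ne_zero hk1s.ne_zero
        have : 0 < e' := Nat.pos_of_ne_zero hk2s.ne_zero
        positivity) hQd
      have h2 : (Q : ℝ) ≤ (q₁ * q₂) * (e * e') := by exact_mod_cast h1
      have g1 : (q₁ : ℝ) ≤ (N : ℝ) ^ (1 / 1000 : ℝ) :=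
        (by exact_mod_cast h12 : (q₁ : ℝ) ≤ z).trans hzN
      have g2 : (q₂ : ℝ) ≤ (N : ℝ) ^ (1 / 1000 : ℝ) :=
        (by exact_mod_cast h22 : (q₂ : ℝ) ≤ z).trans hzN
      have g3 : (e : ℝ) ≤ (N : ℝ) ^ (1 / 1000 : ℝ) :=
        (by exact_mod_cast hk1D : (e : ℝ) ≤ D).trans hDN
      have g4 : (e' : ℝ) ≤ (N : ℝ) ^ (1 / 1000 : ℝ) :=
        (by exact_mod_cast hk2D : (e' : ℝ) ≤ D).trans hDN
      calc (Q : ℝ) ≤ (q₁ * q₂) * (e * e') := h2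
        _ ≤ ((N : ℝ) ^ (1 / 1000 : ℝ) * (N : ℝ) ^ (1 / 1000 : ℝ)) *
            ((N : ℝ) ^ (1 / 1000 : ℝ) * (N : ℝ) ^ (1 / 1000 : ℝ)) := by gcongr
        _ = (N : ℝ) ^ (4 / 1000 : ℝ) := by
            rw [← Real.rpow_add hN0, ← Real.rpow_add hN0]
            norm_num
    refine ⟨hQle, fun b => ?_⟩
    have hcopr : ∀ (V : Finset (ℤ × ℕ)) (d : ℕ), BlK N ε₁ V d → Nat.Coprime Q d := by
      intro V d hd
      refine Nat.coprime_of_dvd ?_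
      intro p hpp hp1 hp2
      have h1 := hpf V d hd p hpp hp2
      have h2 := hQp p hpp hp1
      linarith
    have hXR : ∀ d : ℕ, d ≤ X → (d : ℝ) ≤ (N : ℝ) ^ (49 / 100 : ℝ) := fun d hd =>
      (by exact_mod_cast hd : (d : ℝ) ≤ X).trans hXθ
    have hterm : ∀ d ∈ Icc 1 X, ∀ d' ∈ (Icc 1 X).filter (fun d' => Nat.Coprime d d'),
        |c d * c' d' * ∑' n : ℤ, (if (Q : ℤ) ∣ n - b then Wt N n else 0) *
          (dk k d (Fp S n) * dk k d' (Fp S' n))| ≤ 4 * C₁ ^ 2 / (N : ℝ) ^ 5 := by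
      intro d hd d' hd'
      rw [mem_filter, mem_Icc] at hd'
      rw [mem_Icc] at hd
      by_cases h1 : c d = 0
      · rw [h1, zero_mul, zero_mul, abs_zero]; positivity
      by_cases h2 : c' d' = 0
      · rw [h2, mul_zero, zero_mul, abs_zero]; positivity
      have hm1 := hc.supp d h1
      have hm2 := hc'.supp d' h2
      have b1 := hcB d h1
      have b2 := hcB' d' h2
      have hQdd : ((Q * d * d' : ℕ) : ℝ) ≤ (N : ℝ) ^ (199 / 200 : ℝ) := by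
        push_cast
        have g1 := hXR d hd.2
        have g2 := hXR d' hd'.1.2
        calc (Q : ℝ) * d * d' ≤ (N : ℝ) ^ (4 / 1000 : ℝ) * (N : ℝ) ^ (49 / 100 : ℝ) *
            (N : ℝ) ^ (49 / 100 : ℝ) := by gcongr
          _ = (N : ℝ) ^ ((4 / 1000 : ℝ) + 49 / 100 + 49 / 100) := by
              rw [← Real.rpow_add hN0, ← Real.rpow_add hN0]
          _ ≤ _ := hNle _ _ (by norm_num)
      have h3 := hTT N hNN1 k Q d d' hQ1 hd.1 hd'.1.1 hm1.2.2.1 hm2.2.2.1 (hcopr S d b1)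
        (hcopr S' d' b2) hd'.2 hQdd S S' hS.card hS'.card
        (fun p hp hpd => (hm1.2.2.2 p hp hpd).2) (fun p hp hpd => (hm2.2.2.2 p hp hpd).2) b
      have w1 := hw d (c_mem hc d h1)
      have w2 := hw d' (c_mem hc' d' h2)
      have w0 := Pool.Agent.W82.KT.kw_nonneg k d
      have w0' := Pool.Agent.W82.KT.kw_nonneg k d'
      have h4 : |c d * c' d'| ≤ 1 := by
        rw [abs_mul]
        calc |c d| * |c' d'| ≤ 1 * 1 :=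
              mul_le_mul (hc.bd d) (hc'.bd d') (abs_nonneg _) zero_le_one
          _ = 1 := one_mul 1
      rw [abs_mul]
      calc |c d * c' d'| * |∑' n : ℤ, (if (Q : ℤ) ∣ n - b then Wt N n else 0) *
          (dk k d (Fp S n) * dk k d' (Fp S' n))| ≤ 1 * (4 * (kw k d * kw k d') / (N : ℝ) ^ 5) :=
            mul_le_mul h4 h3 (abs_nonneg _) zero_le_one
        _ = 4 * (kw k d * kw k d') / (N : ℝ) ^ 5 := one_mul _
        _ ≤ 4 * C₁ ^ 2 / (N : ℝ) ^ 5 := by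
            refine div_le_div_of_nonneg_right ?_ (by positivity)
            have : kw k d * kw k d' ≤ C₁ * C₁ := mul_le_mul w1 w2 w0' hC₁0.le
            nlinarith
    calc _ ≤ ∑ d ∈ Icc 1 X, ∑ d' ∈ (Icc 1 X).filter (fun d' => Nat.Coprime d d'),
        4 * C₁ ^ 2 / (N : ℝ) ^ 5 := by
          refine (Finset.abs_sum_le_sum_abs _ _).trans (Finset.sum_le_sum fun d hd => ?_)
          exact (Finset.abs_sum_le_sum_abs _ _).trans (Finset.sum_le_sum fun d' hd' =>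
            hterm d hd d' hd')
      _ ≤ ∑ d ∈ Icc 1 X, ∑ d' ∈ Icc 1 X, 4 * C₁ ^ 2 / (N : ℝ) ^ 5 := by
          refine Finset.sum_le_sum fun d _ => ?_
          exact Finset.sum_le_sum_of_subset_of_nonneg (filter_subset _ _)
            fun _ _ _ => by positivity
      _ = (X : ℝ) * (X * (4 * C₁ ^ 2 / (N : ℝ) ^ 5)) := by
          rw [Finset.sum_const, Finset.sum_const, nsmul_eq_mul, nsmul_eq_mul, Nat.card_Icc,
            Nat.add_sub_cancel]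
      _ ≤ 4 * C₁ ^ 2 := by
          have hXN : (X : ℝ) ≤ N := by exact_mod_cast hXN'
          have e1 : (X : ℝ) * (X * (4 * C₁ ^ 2 / (N : ℝ) ^ 5)) =
              (X : ℝ) ^ 2 * (4 * C₁ ^ 2) / (N : ℝ) ^ 5 := by ring
          rw [e1, div_le_iff₀ (by positivity)]
          have h5 : (X : ℝ) ^ 2 ≤ (N : ℝ) ^ 2 := pow_le_pow_left₀ (by positivity) hXN 2
          have h6 : (N : ℝ) ^ 2 ≤ (N : ℝ) ^ 5 := pow_le_pow_right₀ hN1 (by norm_num)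
          calc (X : ℝ) ^ 2 * (4 * C₁ ^ 2) ≤ (N : ℝ) ^ 5 * (4 * C₁ ^ 2) :=
                mul_le_mul_of_nonneg_right (h5.trans h6) (by positivity)
            _ = _ := by ring
  have htot := total k M N z D X hk hN hXN' (ε₁ / 2) hε (Real.log N) P P' lam th th' hlam.sw.bd
    hth hth' hp hp' S S' hS hS' hdis c c' hc hc' C₁ hC₁0.le hw C0 hC0.le
    (fun V hV n hn => (hPB N X hNN2 hXN' V hV).1 n hn) (κ / m) Cτ (by positivity)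
    (by rw [← hm, hκm]; linarith) hCτ hτ _ hcop
  rw [← hm, hκm] at htot
  refine htot.trans ?_
  -- exponents
  have hU : Real.log N ≤ (N : ℝ) ^ κ / κ := Real.log_le_rpow_div hN0.le hκ
  set U := Real.log N with hUdef
  have hU2 : U ^ 2 ≤ (N : ℝ) ^ (2 * κ) / κ ^ 2 := by
    calc U ^ 2 ≤ ((N : ℝ) ^ κ / κ) ^ 2 := pow_le_pow_left₀ hlogpos.le hU 2
      _ = (N : ℝ) ^ (2 * κ) / κ ^ 2 := by
        rw [div_pow, ← Real.rpow_natCast, ← Real.rpow_mul hN0.le]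
        push_cast
        rw [mul_comm κ 2]
  have hsq : ∀ t : ℕ, (t : ℝ) ≤ (N : ℝ) ^ (1 / 1000 : ℝ) →
      (t : ℝ) ^ 2 ≤ (N : ℝ) ^ (2 / 1000 : ℝ) := by
    intro t ht
    calc (t : ℝ) ^ 2 ≤ ((N : ℝ) ^ (1 / 1000 : ℝ)) ^ 2 := pow_le_pow_left₀ (by positivity) ht 2
      _ = (N : ℝ) ^ (2 / 1000 : ℝ) := by
        rw [← Real.rpow_natCast, ← Real.rpow_mul hN0.le]
        norm_num
  have hz2 := hsq z hzN
  have hD2 := hsq D hDN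
  have hA1 : (z : ℝ) ^ 2 * (D : ℝ) ^ 2 * U ^ 2 ≤ (N : ℝ) ^ (4 / 1000 + 2 * κ) / κ ^ 2 := by
    calc (z : ℝ) ^ 2 * (D : ℝ) ^ 2 * U ^ 2 ≤
        (N : ℝ) ^ (2 / 1000 : ℝ) * (N : ℝ) ^ (2 / 1000 : ℝ) * ((N : ℝ) ^ (2 * κ) / κ ^ 2) := by
          gcongr
      _ = (N : ℝ) ^ (4 / 1000 + 2 * κ) / κ ^ 2 := by
        rw [mul_div_assoc', ← Real.rpow_add hN0, ← Real.rpow_add hN0]
        norm_num
  have hK1 : Cτ ^ 4 * U ^ 2 * (N : ℝ) ^ (4 * κ) ≤ Cτ ^ 4 / κ ^ 2 * (N : ℝ) ^ (6 * κ) := by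
    calc Cτ ^ 4 * U ^ 2 * (N : ℝ) ^ (4 * κ) ≤
        Cτ ^ 4 * ((N : ℝ) ^ (2 * κ) / κ ^ 2) * (N : ℝ) ^ (4 * κ) := by gcongr
      _ = Cτ ^ 4 / κ ^ 2 * ((N : ℝ) ^ (2 * κ) * (N : ℝ) ^ (4 * κ)) := by ring
      _ = Cτ ^ 4 / κ ^ 2 * (N : ℝ) ^ (6 * κ) := by
        rw [← Real.rpow_add hN0]
        congr 2
        ring
  have hNk1 : (1 : ℝ) ≤ (N : ℝ) ^ κ := Real.one_le_rpow hN1 hκ.le
  -- term 1
  have t1 : (z : ℝ) ^ 2 * (D : ℝ) ^ 2 * U ^ 2 * ((N : ℝ) ^ (4 / 1000 : ℝ) * (4 * C₁ ^ 2)) ≤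
      4 * C₁ ^ 2 / κ ^ 2 * (N : ℝ) ^ (1 - η) := by
    calc (z : ℝ) ^ 2 * (D : ℝ) ^ 2 * U ^ 2 * ((N : ℝ) ^ (4 / 1000 : ℝ) * (4 * C₁ ^ 2)) ≤
        (N : ℝ) ^ (4 / 1000 + 2 * κ) / κ ^ 2 * ((N : ℝ) ^ (4 / 1000 : ℝ) * (4 * C₁ ^ 2)) :=
          mul_le_mul_of_nonneg_right hA1 (by positivity)
      _ = 4 * C₁ ^ 2 / κ ^ 2 * ((N : ℝ) ^ (4 / 1000 + 2 * κ) * (N : ℝ) ^ (4 / 1000 : ℝ)) := by
          ring
      _ ≤ 4 * C₁ ^ 2 / κ ^ 2 * (N : ℝ) ^ (1 - η) := by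
          rw [← Real.rpow_add hN0]
          exact mul_le_mul_of_nonneg_left (hNle _ _ (by linarith)) (by positivity)
  -- term 2
  have t2 : (2 * (k : ℝ) + 1) * ((z : ℝ) ^ 2 * (D : ℝ) ^ 2 * U ^ 2 *
      (2 * ((X * (1 + C₁)) * (X * (1 + C₁))))) ≤
      (2 * k + 1) * (2 * (1 + C₁) ^ 2 / κ ^ 2) * (N : ℝ) ^ (1 - η) := by
    calc (2 * (k : ℝ) + 1) * ((z : ℝ) ^ 2 * (D : ℝ) ^ 2 * U ^ 2 *
        (2 * ((X * (1 + C₁)) * (X * (1 + C₁))))) ≤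
        (2 * (k : ℝ) + 1) * ((N : ℝ) ^ (4 / 1000 + 2 * κ) / κ ^ 2 *
        (2 * (((N : ℝ) ^ (49 / 100 : ℝ) * (1 + C₁)) * ((N : ℝ) ^ (49 / 100 : ℝ) * (1 + C₁))))) := by
          gcongr
      _ = (2 * k + 1) * (2 * (1 + C₁) ^ 2 / κ ^ 2) *
          ((N : ℝ) ^ (4 / 1000 + 2 * κ) * (N : ℝ) ^ (49 / 100 : ℝ) * (N : ℝ) ^ (49 / 100 : ℝ)) := by
          ring
      _ ≤ (2 * k + 1) * (2 * (1 + C₁) ^ 2 / κ ^ 2) * (N : ℝ) ^ (1 - η) := by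
          rw [← Real.rpow_add hN0, ← Real.rpow_add hN0]
          exact mul_le_mul_of_nonneg_left (hNle _ _ (by linarith)) (by positivity)
  -- term 3
  have hlin1 : 1 + U ≤ Lg * (N : ℝ) ^ κ := by
    have h1 : U ≤ 1 / κ * (N : ℝ) ^ κ := by
      rw [one_div, inv_mul_eq_div]; exact hU
    have h3 : Lg * (N : ℝ) ^ κ = (N : ℝ) ^ κ + 1 / κ * (N : ℝ) ^ κ := by rw [hLg]; ring
    linarith
  have hlin2 : 2 * C0 + C₁ * (1 + U) ≤ (2 * C0 + C₁ * Lg) * (N : ℝ) ^ κ := by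
    have h1 : 2 * C0 ≤ 2 * C0 * (N : ℝ) ^ κ := le_mul_of_one_le_right (by positivity) hNk1
    have h2 := mul_le_mul_of_nonneg_left hlin1 hC₁0.le
    linarith
  have hy0 : 0 < (N : ℝ) ^ (ε₁ / 2) := by positivity
  have hNy : (N : ℝ) / (N : ℝ) ^ (ε₁ / 2) = (N : ℝ) ^ (1 - ε₁ / 2) := by
    rw [Real.rpow_sub hN0, Real.rpow_one]
  have hNy1 : (1 : ℝ) ≤ (N : ℝ) ^ (1 - ε₁ / 2) := Real.one_le_rpow hN1 (by linarith)
  have u1 : 4 * (2 * (N : ℝ) / (N : ℝ) ^ (ε₁ / 2) + 1) ≤ 12 * (N : ℝ) ^ (1 - ε₁ / 2) := by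
    have e1 : 2 * (N : ℝ) / (N : ℝ) ^ (ε₁ / 2) = 2 * (N : ℝ) ^ (1 - ε₁ / 2) := by
      rw [mul_div_assoc, hNy]
    rw [e1]
    linarith
  have u2 : (C₁ * (1 / (ε₁ / 2) * ((1 + U) / (N : ℝ) ^ (ε₁ / 2)))) * (2 * C0 + C₁ * (1 + U)) *
      (4 * (2 * (N : ℝ) + 1)) ≤
      12 * (C₁ * Lg * (2 * C0 + C₁ * Lg) / (ε₁ / 2)) *
        ((N : ℝ) ^ (2 * κ) * (N : ℝ) ^ (1 - ε₁ / 2)) := by
    have e2 : (N : ℝ) ^ κ * (N : ℝ) ^ κ = (N : ℝ) ^ (2 * κ) := by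
      rw [← Real.rpow_add hN0]; congr 1; ring
    calc (C₁ * (1 / (ε₁ / 2) * ((1 + U) / (N : ℝ) ^ (ε₁ / 2)))) * (2 * C0 + C₁ * (1 + U)) *
        (4 * (2 * (N : ℝ) + 1)) ≤
        (C₁ * (1 / (ε₁ / 2) * ((Lg * (N : ℝ) ^ κ) / (N : ℝ) ^ (ε₁ / 2)))) *
          ((2 * C0 + C₁ * Lg) * (N : ℝ) ^ κ) * (12 * (N : ℝ)) := by
          have e3 : 4 * (2 * (N : ℝ) + 1) ≤ 12 * (N : ℝ) := by linarith
          have e4 : (0 : ℝ) ≤ 1 + U := by linarith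
          refine mul_le_mul (mul_le_mul ?_ hlin2 (by positivity) (by positivity)) e3
            (by positivity) (by positivity)
          refine mul_le_mul_of_nonneg_left (mul_le_mul_of_nonneg_left ?_ (by positivity)) hC₁0.le
          exact div_le_div_of_nonneg_right hlin1 hy0.le
      _ = 12 * (C₁ * Lg * (2 * C0 + C₁ * Lg) / (ε₁ / 2)) *
          (((N : ℝ) ^ κ * (N : ℝ) ^ κ) * ((N : ℝ) / (N : ℝ) ^ (ε₁ / 2))) := by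
          ring
      _ = _ := by rw [e2, hNy]
  have hE0 : (0 : ℝ) ≤ C0 ^ 2 * ((k : ℝ) ^ 2 * (((2 * M + 1 : ℕ) : ℝ) / (ε₁ / 2))) := by
    positivity
  have u3 : C0 ^ 2 * ((k : ℝ) ^ 2 * (((2 * M + 1 : ℕ) : ℝ) / (ε₁ / 2) *
      (4 * (2 * (N : ℝ) / (N : ℝ) ^ (ε₁ / 2) + 1)))) ≤
      12 * (C0 ^ 2 * ((k : ℝ) ^ 2 * (((2 * M + 1 : ℕ) : ℝ) / (ε₁ / 2)))) *
        ((N : ℝ) ^ (2 * κ) * (N : ℝ) ^ (1 - ε₁ / 2)) := by
    have e1 : (1 : ℝ) ≤ (N : ℝ) ^ (2 * κ) := Real.one_le_rpow hN1 (by positivity)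
    have e2 : (N : ℝ) ^ (1 - ε₁ / 2) ≤ (N : ℝ) ^ (2 * κ) * (N : ℝ) ^ (1 - ε₁ / 2) :=
      le_mul_of_one_le_left (by positivity) e1
    calc C0 ^ 2 * ((k : ℝ) ^ 2 * (((2 * M + 1 : ℕ) : ℝ) / (ε₁ / 2) *
        (4 * (2 * (N : ℝ) / (N : ℝ) ^ (ε₁ / 2) + 1)))) =
        (C0 ^ 2 * ((k : ℝ) ^ 2 * (((2 * M + 1 : ℕ) : ℝ) / (ε₁ / 2)))) *
          (4 * (2 * (N : ℝ) / (N : ℝ) ^ (ε₁ / 2) + 1)) := by ring
      _ ≤ (C0 ^ 2 * ((k : ℝ) ^ 2 * (((2 * M + 1 : ℕ) : ℝ) / (ε₁ / 2)))) *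
          (12 * ((N : ℝ) ^ (2 * κ) * (N : ℝ) ^ (1 - ε₁ / 2))) := by
          refine mul_le_mul_of_nonneg_left ?_ hE0
          linarith
      _ = _ := by ring
  have t3 : 2 * (Cτ ^ 4 * U ^ 2 * (N : ℝ) ^ (4 * κ)) *
      (C0 ^ 2 * ((k : ℝ) ^ 2 * (((2 * M + 1 : ℕ) : ℝ) / (ε₁ / 2) *
        (4 * (2 * N / (N : ℝ) ^ (ε₁ / 2) + 1)))) +
        (C₁ * (1 / (ε₁ / 2) * ((1 + U) / (N : ℝ) ^ (ε₁ / 2)))) * (2 * C0 + C₁ * (1 + U)) *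
          (4 * (2 * N + 1))) ≤
      2 * (Cτ ^ 4 / κ ^ 2) * (12 * (C0 ^ 2 * ((k : ℝ) ^ 2 * (((2 * M + 1 : ℕ) : ℝ) / (ε₁ / 2)))) +
        12 * (C₁ * Lg * (2 * C0 + C₁ * Lg) / (ε₁ / 2))) * (N : ℝ) ^ (1 - η) := by
    obtain ⟨a1, ha1⟩ : ∃ a1 : ℝ, a1 = C0 ^ 2 * ((k : ℝ) ^ 2 * (((2 * M + 1 : ℕ) : ℝ) / (ε₁ / 2))) :=
      ⟨_, rfl⟩
    obtain ⟨a2, ha2⟩ : ∃ a2 : ℝ, a2 = C₁ * Lg * (2 * C0 + C₁ * Lg) / (ε₁ / 2) := ⟨_, rfl⟩
    have ha10 : 0 ≤ a1 := by rw [ha1]; exact hE0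
    have ha20 : 0 ≤ a2 := by rw [ha2]; positivity
    rw [← ha1] at u3 ⊢
    rw [← ha2] at u2 ⊢
    have hs := add_le_add u3 u2
    have h3 : (0 : ℝ) ≤ Cτ ^ 4 * U ^ 2 * (N : ℝ) ^ (4 * κ) := by positivity
    have h5 : (N : ℝ) ^ (6 * κ) * ((N : ℝ) ^ (2 * κ) * (N : ℝ) ^ (1 - ε₁ / 2)) ≤
        (N : ℝ) ^ (1 - η) := by
      rw [← Real.rpow_add hN0, ← Real.rpow_add hN0]
      exact hNle _ _ (by linarith)
    calc _ ≤ 2 * (Cτ ^ 4 * U ^ 2 * (N : ℝ) ^ (4 * κ)) *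
          (12 * a1 * ((N : ℝ) ^ (2 * κ) * (N : ℝ) ^ (1 - ε₁ / 2)) +
          12 * a2 * ((N : ℝ) ^ (2 * κ) * (N : ℝ) ^ (1 - ε₁ / 2))) :=
          mul_le_mul_of_nonneg_left hs (by positivity)
      _ ≤ 2 * (Cτ ^ 4 / κ ^ 2 * (N : ℝ) ^ (6 * κ)) *
          (12 * a1 * ((N : ℝ) ^ (2 * κ) * (N : ℝ) ^ (1 - ε₁ / 2)) +
          12 * a2 * ((N : ℝ) ^ (2 * κ) * (N : ℝ) ^ (1 - ε₁ / 2))) := by
          refine mul_le_mul_of_nonneg_right ?_ (by positivity)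
          linarith
      _ = 2 * (Cτ ^ 4 / κ ^ 2) * (12 * a1 + 12 * a2) *
          ((N : ℝ) ^ (6 * κ) * ((N : ℝ) ^ (2 * κ) * (N : ℝ) ^ (1 - ε₁ / 2))) := by ring
      _ ≤ _ := mul_le_mul_of_nonneg_left h5 (by positivity)
  have hsum := add_le_add (add_le_add t1 t2) t3
  refine hsum.trans ?_
  rw [← add_mul, ← add_mul]
  refine mul_le_mul_of_nonneg_right ?_ (by positivity)
  rw [← hCb]
  linarith

end Pool.Agent.W108.KS
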