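import Pool.Agent.W23.KS.Defs
import Pool.Agent.W372.PL.OFD3
import Pool.Agent.W45.KT.TTK
import Pool.Agent.W358.KT.NCK
import Pool.Agent.W82.KT.PBK

set_option autoImplicit false

/-!
KS project, task OFDK, part 1 (helper108): expansion of the weight and the coprime pairs.
Adapted from `Pool.Agent.W372.PL.OFD1`.
-/

namespace Pool.Agent.W108.KS

open Finset
open Pool.Agent.H442R2
open Pool.Agent.H442R2.KF
open Pool.Agent.H442R2.BX
open Pool.Agent.H442R2.BX.TaskEX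
open Pool.Agent.W23.DC
open Pool.Agent.W23.SG
open Pool.Agent.W23.PL
open Pool.Agent.W23.KT
open Pool.Agent.W23.KS
open Pool.Agent.W372.PL (SI co Ev_eq sqf_lcm II_nonneg II_le_one)

/-- functions compatible with all congruences -/
def Per (F : ℤ → ℤ) : Prop :=
  ∀ (d : ℕ) (n m : ℤ), (d : ℤ) ∣ n - m → ((d : ℤ) ∣ F n ↔ (d : ℤ) ∣ F m)

theorem per_Fp (S : Finset (ℤ × ℕ)) : Per (Fp S) := by
  classical
  intro d n m h
  have h1 : (d : ℤ) ∣ Fp S n - Fp S m := by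
    unfold Fp
    induction S using Finset.induction_on with
    | empty => simp
    | insert L T hL ih =>
      rw [Finset.prod_insert hL, Finset.prod_insert hL]
      have h2 : (d : ℤ) ∣ lf L n - lf L m := by
        unfold lf
        have e : L.1 + (L.2 : ℤ) * n - (L.1 + (L.2 : ℤ) * m) = (L.2 : ℤ) * (n - m) := by ring
        rw [e]
        exact h.mul_left _
      have e : lf L n * ∏ L ∈ T, lf L n - lf L m * ∏ L ∈ T, lf L m =
          (lf L n - lf L m) * ∏ L ∈ T, lf L n +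
            lf L m * (∏ L ∈ T, lf L n - ∏ L ∈ T, lf L m) := by ring
      rw [e]
      exact dvd_add (h2.mul_right _) (ih.mul_left _)
  constructor
  · intro h2
    have := dvd_sub h2 h1
    simpa using this
  · intro h2
    have := dvd_add h1 h2
    simpa using this

theorem per_id : Per (fun n => n) := by
  intro d n m h
  constructor
  · intro h2
    have := dvd_sub h2 h
    simpa using this
  · intro h2
    have := dvd_add h h2
    simpa using this

/-- the indicators of the expansion of the weight -/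
noncomputable def ind (F F' : ℤ → ℤ) (n : ℤ) (s : ℕ × ℕ × ℕ × ℕ) : ℝ :=
  II (Nat.lcm s.1 s.2.1) n * II s.2.2.1 (F n) * II s.2.2.2 (F' n)

theorem G_eq (lam th th' : ℕ → ℝ) (z D : ℕ) (F F' : ℤ → ℤ) (n : ℤ) :
    nuS lam z n * (Ev th D (F n) * Ev th' D (F' n)) =
      ∑ s ∈ SI z D, co lam th th' s * ind F F' n s := by
  unfold SI co ind
  rw [nuS_eq, Ev_eq, Ev_eq, Finset.sum_product, Finset.sum_mul]
  refine Finset.sum_congr rfl fun q₁ _ => ?_
  rw [Finset.sum_product, Finset.sum_mul]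
  refine Finset.sum_congr rfl fun q₂ _ => ?_
  rw [Finset.sum_product, Finset.sum_mul_sum, Finset.mul_sum]
  refine Finset.sum_congr rfl fun k _ => ?_
  rw [Finset.mul_sum]
  refine Finset.sum_congr rfl fun k' _ => ?_
  ring

/-- the coprime pairs -/
noncomputable def Mc (k : ℕ) (c c' : ℕ → ℝ) (X : ℕ) (F F' : ℤ → ℤ) (n : ℤ) : ℝ :=
  ∑ d ∈ Icc 1 X, ∑ d' ∈ (Icc 1 X).filter (fun d' => Nat.Coprime d d'),
    c d * c' d' * (dk k d (F n) * dk k d' (F' n))

theorem dk_eq (k d : ℕ) (m : ℤ) : dk k d m = II d m - kw k d / (d : ℝ) := by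
  unfold dk II
  congr

theorem dk_abs (k d : ℕ) (m : ℤ) : |dk k d m| ≤ 1 + kw k d := by
  have h := Pool.Agent.W82.KT.abs_dk_le k d m
  have h0 := Pool.Agent.W82.KT.kw_nonneg k d
  have h1 : kw k d / d ≤ kw k d := by
    rcases Nat.eq_zero_or_pos d with h | h
    · rw [h]; simp
      exact Pool.Agent.W82.KT.kw_nonneg k 0
    · exact div_le_self h0 (by exact_mod_cast h)
  have h2 : (if (d : ℤ) ∣ m then (1 : ℝ) else 0) ≤ 1 := by split_ifs <;> norm_num
  linarith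

theorem Mc_abs (k : ℕ) (c c' : ℕ → ℝ) (X : ℕ) (F F' : ℤ → ℤ) (n : ℤ) :
    |Mc k c c' X F F' n| ≤ ∑ d ∈ Icc 1 X, ∑ d' ∈ (Icc 1 X).filter (fun d' => Nat.Coprime d d'),
      |c d * c' d'| * ((1 + kw k d) * (1 + kw k d')) := by
  unfold Mc
  refine (Finset.abs_sum_le_sum_abs _ _).trans (Finset.sum_le_sum fun d _ => ?_)
  refine (Finset.abs_sum_le_sum_abs _ _).trans (Finset.sum_le_sum fun d' _ => ?_)
  rw [abs_mul]
  refine mul_le_mul_of_nonneg_left ?_ (abs_nonneg _)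
  rw [abs_mul]
  have h0 := Pool.Agent.W82.KT.kw_nonneg k d
  exact mul_le_mul (dk_abs k d _) (dk_abs k d' _) (abs_nonneg _) (by linarith)

theorem ind_abs (F F' : ℤ → ℤ) (n : ℤ) (s : ℕ × ℕ × ℕ × ℕ) : |ind F F' n s| ≤ 1 := by
  unfold ind
  rw [abs_mul, abs_mul]
  have k1 := II_abs (Nat.lcm s.1 s.2.1) n
  have k2 := II_abs s.2.2.1 (F n)
  have k3 := II_abs s.2.2.2 (F' n)
  calc |II (Nat.lcm s.1 s.2.1) n| * |II s.2.2.1 (F n)| * |II s.2.2.2 (F' n)| ≤ 1 * 1 * 1 := by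
        gcongr
    _ = 1 := by norm_num

/-- exchange of the finite sum with the sum over `n` -/
theorem expand (N : ℕ) (hN : 1 ≤ N) (lam th th' : ℕ → ℝ) (z D : ℕ) (F F' : ℤ → ℤ) (H : ℤ → ℝ)
    (B : ℝ) (hH : ∀ n, |H n| ≤ B) :
    ∑' n : ℤ, Wt N n * nuS lam z n * (Ev th D (F n) * Ev th' D (F' n)) * H n =
      ∑ s ∈ SI z D, co lam th th' s * ∑' n : ℤ, Wt N n * (ind F F' n s * H n) := by
  have hB : 0 ≤ B := (abs_nonneg _).trans (hH 0)
  have hs : ∀ s ∈ SI z D,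
      Summable (fun n : ℤ => co lam th th' s * (Wt N n * (ind F F' n s * H n))) := by
    intro s _
    refine Summable.mul_left _ (summable_bd N hN _ (1 * B) fun n => ?_)
    rw [abs_mul]
    exact mul_le_mul (ind_abs F F' n s) (hH n) (abs_nonneg _) zero_le_one
  have h1 : ∀ n : ℤ, Wt N n * nuS lam z n * (Ev th D (F n) * Ev th' D (F' n)) * H n =
      ∑ s ∈ SI z D, co lam th th' s * (Wt N n * (ind F F' n s * H n)) := by
    intro n
    have h2 : Wt N n * nuS lam z n * (Ev th D (F n) * Ev th' D (F' n)) * H n =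
      (nuS lam z n * (Ev th D (F n) * Ev th' D (F' n))) * (Wt N n * H n) := by ring
    rw [h2, G_eq, Finset.sum_mul]
    refine Finset.sum_congr rfl fun s _ => ?_
    ring
  rw [tsum_congr h1, Summable.tsum_finsetSum hs]
  refine Finset.sum_congr rfl fun s _ => ?_
  rw [tsum_mul_left]

/-- periodic indicators are sums of indicators of residue classes -/
theorem ind_classes (F F' : ℤ → ℤ) (hF : Per F) (hF' : Per F') (s : ℕ × ℕ × ℕ × ℕ) (Q : ℕ)
    (hQ : 1 ≤ Q) (h1 : Nat.lcm s.1 s.2.1 ∣ Q) (h2 : s.2.2.1 ∣ Q) (h3 : s.2.2.2 ∣ Q) (n : ℤ) :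
    ind F F' n s = ∑ b ∈ range Q, ind F F' (b : ℤ) s * II Q (n - (b : ℤ)) := by
  have hQ0 : (0 : ℤ) < (Q : ℤ) := by exact_mod_cast hQ
  have e1 := Int.emod_nonneg n hQ0.ne'
  have e2 := Int.emod_lt_of_pos n hQ0
  have hb : (((n % (Q : ℤ)).toNat : ℕ) : ℤ) = n % (Q : ℤ) := Int.toNat_of_nonneg e1
  have hdv : (Q : ℤ) ∣ n - (((n % (Q : ℤ)).toNat : ℕ) : ℤ) := by
    rw [hb]; exact Int.dvd_self_sub_emod
  have hper : ∀ m : ℤ, (Q : ℤ) ∣ n - m → ind F F' n s = ind F F' m s := by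
    intro m hm
    have g1 : ((Nat.lcm s.1 s.2.1 : ℕ) : ℤ) ∣ n - m := (Int.natCast_dvd_natCast.2 h1).trans hm
    have g2 : (s.2.2.1 : ℤ) ∣ n - m := (Int.natCast_dvd_natCast.2 h2).trans hm
    have g3 : (s.2.2.2 : ℤ) ∣ n - m := (Int.natCast_dvd_natCast.2 h3).trans hm
    have i1 := per_id (Nat.lcm s.1 s.2.1) n m g1
    have i2 := hF s.2.2.1 n m g2
    have i3 := hF' s.2.2.2 n m g3
    unfold ind II
    simp only [i1, i2, i3]
  rw [Finset.sum_eq_single ((n % (Q : ℤ)).toNat)]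
  · rw [← hper _ hdv]
    unfold II
    rw [if_pos hdv, mul_one]
  · intro b hb1 hne
    rw [Finset.mem_range] at hb1
    unfold II
    rw [if_neg, mul_zero]
    intro hd
    apply hne
    have h5 : (Q : ℤ) ∣ (b : ℤ) - n % (Q : ℤ) := by
      have := dvd_sub hdv hd
      rw [hb] at this
      have e : n - n % (Q : ℤ) - (n - (b : ℤ)) = (b : ℤ) - n % (Q : ℤ) := by ring
      rwa [e] at this
    have h6 : (b : ℤ) - n % (Q : ℤ) = 0 := by
      apply Int.eq_zero_of_abs_lt_dvd h5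
      rw [abs_lt]
      constructor <;> omega
    omega
  · intro h
    exfalso
    apply h
    rw [Finset.mem_range]
    omega

/-- one residue class -/
theorem one_class (k N : ℕ) (hN : 1 ≤ N) (c c' : ℕ → ℝ) (X Q : ℕ) (F F' : ℤ → ℤ) (b : ℤ) :
    ∑' n : ℤ, Wt N n * (II Q (n - b) * Mc k c c' X F F' n) =
      ∑ d ∈ Icc 1 X, ∑ d' ∈ (Icc 1 X).filter (fun d' => Nat.Coprime d d'), c d * c' d' *
      ∑' n : ℤ, (if (Q : ℤ) ∣ n - b then Wt N n else 0) *
        (dk k d (F n) * dk k d' (F' n)) := by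
  have hs : ∀ d d' : ℕ, Summable (fun n : ℤ => c d * c' d' *
      ((if (Q : ℤ) ∣ n - b then Wt N n else 0) * (dk k d (F n) * dk k d' (F' n)))) := by
    intro d d'
    refine Summable.mul_left _ ?_
    have h := summable_bd N hN (fun n : ℤ => II Q (n - b) * (dk k d (F n) * dk k d' (F' n)))
      (1 * ((1 + kw k d) * (1 + kw k d'))) (fun n => by
        rw [abs_mul, abs_mul]
        have k1 := II_abs Q (n - b)
        have k2 := dk_abs k d (F n)
        have k3 := dk_abs k d' (F' n)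
        have h0 := Pool.Agent.W82.KT.kw_nonneg k d
        exact mul_le_mul k1 (mul_le_mul k2 k3 (abs_nonneg _) (by linarith)) (by positivity)
          zero_le_one)
    refine h.congr fun n => ?_
    unfold II
    by_cases h1 : (Q : ℤ) ∣ n - b <;> simp [h1]
  have h1 : ∀ n : ℤ, Wt N n * (II Q (n - b) * Mc k c c' X F F' n) =
      ∑ d ∈ Icc 1 X, ∑ d' ∈ (Icc 1 X).filter (fun d' => Nat.Coprime d d'), c d * c' d' *
      ((if (Q : ℤ) ∣ n - b then Wt N n else 0) * (dk k d (F n) * dk k d' (F' n))) := by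
    intro n
    have h2 : Wt N n * (II Q (n - b) * Mc k c c' X F F' n) =
        (if (Q : ℤ) ∣ n - b then Wt N n else 0) * Mc k c c' X F F' n := by
      unfold II
      by_cases h1 : (Q : ℤ) ∣ n - b <;> simp [h1]
    rw [h2]
    unfold Mc
    rw [Finset.mul_sum]
    refine Finset.sum_congr rfl fun d _ => ?_
    rw [Finset.mul_sum]
    refine Finset.sum_congr rfl fun d' _ => ?_
    ring
  rw [tsum_congr h1, Summable.tsum_finsetSum fun d _ => summable_sum fun d' _ => hs d d']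
  refine Finset.sum_congr rfl fun d _ => ?_
  rw [Summable.tsum_finsetSum fun d' _ => hs d d']
  refine Finset.sum_congr rfl fun d' _ => ?_
  rw [tsum_mul_left]

/-- the coprime pairs, all terms of the expansion -/
theorem cop_part (k N z D X : ℕ) (hN : 1 ≤ N) (U B Qm : ℝ) (hU : 0 ≤ U) (hB : 0 ≤ B)
    (hQm : 0 ≤ Qm)
    (lam th th' : ℕ → ℝ) (hlam : ∀ q, |lam q| ≤ 1) (hth : ∀ k, |th k| ≤ U)
    (hth' : ∀ k, |th' k| ≤ U) (F F' : ℤ → ℤ) (hF : Per F) (hF' : Per F') (c c' : ℕ → ℝ)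
    (hcl : ∀ q₁ ∈ Icc 1 z, ∀ q₂ ∈ Icc 1 z, ∀ e ∈ Icc 1 D, ∀ e' ∈ Icc 1 D, lam q₁ ≠ 0 →
      lam q₂ ≠ 0 → th e ≠ 0 → th' e' ≠ 0 →
      ((Nat.lcm (Nat.lcm q₁ q₂) (Nat.lcm e e') : ℕ) : ℝ) ≤ Qm ∧ ∀ b : ℤ,
      |∑ d ∈ Icc 1 X, ∑ d' ∈ (Icc 1 X).filter (fun d' => Nat.Coprime d d'), c d * c' d' *
      ∑' n : ℤ, (if ((Nat.lcm (Nat.lcm q₁ q₂) (Nat.lcm e e') : ℕ) : ℤ) ∣ n - b then Wt N n else 0) *
        (dk k d (F n) * dk k d' (F' n))| ≤ B) :
    |∑' n : ℤ, Wt N n * nuS lam z n * (Ev th D (F n) * Ev th' D (F' n)) *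
      Mc k c c' X F F' n| ≤ (z : ℝ) ^ 2 * (D : ℝ) ^ 2 * U ^ 2 * (Qm * B) := by
  rw [expand N hN lam th th' z D F F' (Mc k c c' X F F') _ (fun n => Mc_abs k c c' X F F' n)]
  have hQB : 0 ≤ U ^ 2 * (Qm * B) := by positivity
  have hterm : ∀ s ∈ SI z D, |co lam th th' s *
      ∑' n : ℤ, Wt N n * (ind F F' n s * Mc k c c' X F F' n)| ≤ U ^ 2 * (Qm * B) := by
    rintro ⟨q₁, q₂, e, e'⟩ hs
    unfold SI at hs
    simp only [Finset.mem_product] at hs
    obtain ⟨hq₁, hq₂, hk, hk'⟩ := hs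
    by_cases h1 : lam q₁ = 0
    · simp [co, h1, hQB]
    by_cases h2 : lam q₂ = 0
    · simp [co, h2, hQB]
    by_cases h3 : th e = 0
    · simp [co, h3, hQB]
    by_cases h4 : th' e' = 0
    · simp [co, h4, hQB]
    have hco : |co lam th th' (q₁, q₂, e, e')| ≤ U ^ 2 := by
      unfold co
      rw [abs_mul, abs_mul, abs_mul]
      have g1 := hlam q₁
      have g2 := hlam q₂
      have g3 := hth e
      have g4 := hth' e'
      calc |lam q₁| * |lam q₂| * (|th e| * |th' e'|) ≤ 1 * 1 * (U * U) := by gcongr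
        _ = U ^ 2 := by ring
    rw [abs_mul]
    refine mul_le_mul hco ?_ (abs_nonneg _) (by positivity)
    obtain ⟨hQle, hcl'⟩ := hcl q₁ hq₁ q₂ hq₂ e hk e' hk' h1 h2 h3 h4
    have hQ1 : 1 ≤ Nat.lcm (Nat.lcm q₁ q₂) (Nat.lcm e e') :=
      Nat.lcm_pos (Nat.lcm_pos (Finset.mem_Icc.1 hq₁).1 (Finset.mem_Icc.1 hq₂).1)
        (Nat.lcm_pos (Finset.mem_Icc.1 hk).1 (Finset.mem_Icc.1 hk').1)
    have d1 : Nat.lcm q₁ q₂ ∣ Nat.lcm (Nat.lcm q₁ q₂) (Nat.lcm e e') := Nat.dvd_lcm_left _ _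
    have d2 : e ∣ Nat.lcm (Nat.lcm q₁ q₂) (Nat.lcm e e') :=
      (Nat.dvd_lcm_left e e').trans (Nat.dvd_lcm_right _ _)
    have d3 : e' ∣ Nat.lcm (Nat.lcm q₁ q₂) (Nat.lcm e e') :=
      (Nat.dvd_lcm_right e e').trans (Nat.dvd_lcm_right _ _)
    generalize Nat.lcm (Nat.lcm q₁ q₂) (Nat.lcm e e') = Q at hQle hcl' hQ1 d1 d2 d3
    have h6 : ∀ n : ℤ, Wt N n * (ind F F' n (q₁, q₂, e, e') * Mc k c c' X F F' n) =
        ∑ b ∈ range Q, ind F F' (b : ℤ) (q₁, q₂, e, e') *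
          (Wt N n * (II Q (n - (b : ℤ)) * Mc k c c' X F F' n)) := by
      intro n
      rw [ind_classes F F' hF hF' (q₁, q₂, e, e') Q hQ1 d1 d2 d3 n, Finset.sum_mul, Finset.mul_sum]
      refine Finset.sum_congr rfl fun b _ => ?_
      ring
    have hsm : ∀ b ∈ range Q, Summable (fun n : ℤ => ind F F' (b : ℤ) (q₁, q₂, e, e') *
          (Wt N n * (II Q (n - (b : ℤ)) * Mc k c c' X F F' n))) := by
      intro b _
      obtain ⟨BM, hBM⟩ : ∃ BM : ℝ, ∀ n, |Mc k c c' X F F' n| ≤ BM :=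
        ⟨_, fun n => Mc_abs k c c' X F F' n⟩
      refine Summable.mul_left _ (summable_bd N hN _ (1 * BM) fun n => ?_)
      rw [abs_mul]
      exact mul_le_mul (II_abs _ _) (hBM n) (abs_nonneg _) zero_le_one
    rw [tsum_congr h6, Summable.tsum_finsetSum hsm]
    calc |∑ b ∈ range Q, ∑' n : ℤ, ind F F' (b : ℤ) (q₁, q₂, e, e') *
          (Wt N n * (II Q (n - (b : ℤ)) * Mc k c c' X F F' n))|
        ≤ ∑ b ∈ range Q, |∑' n : ℤ, ind F F' (b : ℤ) (q₁, q₂, e, e') *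
          (Wt N n * (II Q (n - (b : ℤ)) * Mc k c c' X F F' n))| := Finset.abs_sum_le_sum_abs _ _
      _ ≤ ∑ b ∈ range Q, B := by
          refine Finset.sum_le_sum fun b _ => ?_
          rw [tsum_mul_left, abs_mul, one_class k N hN]
          calc _ ≤ 1 * B := mul_le_mul (ind_abs F F' _ _) (hcl' b) (abs_nonneg _) zero_le_one
            _ = B := one_mul B
      _ = Q * B := by rw [Finset.sum_const, nsmul_eq_mul, Finset.card_range]
      _ ≤ Qm * B := mul_le_mul_of_nonneg_right hQle hB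
  calc |∑ s ∈ SI z D, co lam th th' s *
      ∑' n : ℤ, Wt N n * (ind F F' n s * Mc k c c' X F F' n)| ≤
      ∑ s ∈ SI z D, |co lam th th' s *
      ∑' n : ℤ, Wt N n * (ind F F' n s * Mc k c c' X F F' n)| := Finset.abs_sum_le_sum_abs _ _
    _ ≤ ∑ s ∈ SI z D, U ^ 2 * (Qm * B) := Finset.sum_le_sum hterm
    _ = (z : ℝ) ^ 2 * (D : ℝ) ^ 2 * U ^ 2 * (Qm * B) := by
        rw [Finset.sum_const, nsmul_eq_mul]
        unfold SI
        rw [Finset.card_product, Finset.card_product, Finset.card_product, Nat.card_Icc,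
          Nat.card_Icc]
        simp only [Nat.add_sub_cancel]
        push_cast
        ring

end Pool.Agent.W108.KS
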