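import Pool.Agent.W108.KS.OFDK1

set_option autoImplicit false

/-!
KS project, task OFDK, part 2 (helper108): the pairs with a common factor.
-/

namespace Pool.Agent.W108.KS

open Finset
open Pool.Agent.H442R2
open Pool.Agent.H442R2.KF
open Pool.Agent.H442R2.BX
open Pool.Agent.H442R2.BX.TaskEX
open Pool.Agent.W23.DC
open Pool.Agent.W23.SG
open Pool.Agent.W23.PL
open Pool.Agent.W23.KT
open Pool.Agent.W23.KS
open Pool.Agent.W372.PL (SI co Ev_eq sqf_lcm II_nonneg II_le_one mem_roughs roughs_sub sum_II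
  card_roughs harm)

/-- `1_{d | m} + C₁/d` -/
noncomputable def vk (C₁ : ℝ) (d : ℕ) (m : ℤ) : ℝ := II d m + C₁ / (d : ℝ)

theorem vk_nonneg {C₁ : ℝ} (h : 0 ≤ C₁) (d : ℕ) (m : ℤ) : 0 ≤ vk C₁ d m :=
  add_nonneg (II_nonneg d m) (by positivity)

theorem dk_le_vk {k : ℕ} {C₁ : ℝ} (d : ℕ) (m : ℤ) (h : kw k d ≤ C₁) :
    |dk k d m| ≤ vk C₁ d m := by
  rw [dk_eq]
  unfold vk
  have h1 := II_nonneg d m
  have h0 := Pool.Agent.W82.KT.kw_nonneg k d
  have h2 : 0 ≤ kw k d / (d : ℝ) := by positivity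
  have h3 : kw k d / (d : ℝ) ≤ C₁ / (d : ℝ) := div_le_div_of_nonneg_right h (by positivity)
  rw [abs_le]
  constructor <;> linarith

/-- the pairs with a common factor -/
noncomputable def Ek (C₁ y : ℝ) (X : ℕ) (F F' : ℤ → ℤ) (n : ℤ) : ℝ :=
  ∑ d ∈ roughs y X, ∑ d' ∈ (roughs y X).filter (fun d' => ¬ Nat.Coprime d d'),
    vk C₁ d (F n) * vk C₁ d' (F' n)

section
variable {k : ℕ} {C₁ y : ℝ} {X : ℕ} {S S' : Finset (ℤ × ℕ)} {n : ℤ} {c c' : ℕ → ℝ}

theorem c_mem (hc : CofK y X S c) : ∀ d, c d ≠ 0 → d ∈ roughs y X := by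
  intro d hd
  have h := hc.supp d hd
  exact mem_roughs.2 ⟨⟨h.1.le, h.2.1⟩, Pool.Agent.W45.KT.Mo_rough y X S d h⟩

theorem RR_eq (hc : CofK y X S c) (hc' : CofK y X S' c') :
    RK k c X S n * RK k c' X S' n = ∑ d ∈ roughs y X, ∑ d' ∈ roughs y X,
      c d * c' d' * (dk k d (Fp S n) * dk k d' (Fp S' n)) := by
  rw [← TaskTT.restr (roughs y X) (Icc 1 X) (roughs_sub y X) c c' (c_mem hc) (c_mem hc')
    (fun d d' => dk k d (Fp S n) * dk k d' (Fp S' n))]
  unfold RK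
  rw [Finset.sum_mul_sum]
  refine Finset.sum_congr rfl fun d _ => Finset.sum_congr rfl fun d' _ => ?_
  ring

theorem Mc_eq (hc : CofK y X S c) (hc' : CofK y X S' c') :
    Mc k c c' X (Fp S) (Fp S') n = ∑ d ∈ roughs y X, ∑ d' ∈ roughs y X,
      c d * c' d' * (if Nat.Coprime d d' then dk k d (Fp S n) * dk k d' (Fp S' n) else 0) := by
  have h1 : Mc k c c' X (Fp S) (Fp S') n = ∑ d ∈ Icc 1 X, ∑ d' ∈ Icc 1 X, c d * c' d' *
      (if Nat.Coprime d d' then dk k d (Fp S n) * dk k d' (Fp S' n) else 0) := by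
    unfold Mc
    refine Finset.sum_congr rfl fun d _ => ?_
    rw [Finset.sum_filter]
    refine Finset.sum_congr rfl fun d' _ => ?_
    split_ifs
    · rfl
    · ring
  rw [h1, TaskTT.restr (roughs y X) (Icc 1 X) (roughs_sub y X) c c' (c_mem hc) (c_mem hc')]

theorem diff_le (hC : 0 ≤ C₁) (hw : ∀ d ∈ roughs y X, kw k d ≤ C₁) (hc : CofK y X S c)
    (hc' : CofK y X S' c') (hn : Fp S n ≠ 0) (hn' : Fp S' n ≠ 0) :
    |rK k c X S n * rK k c' X S' n - Mc k c c' X (Fp S) (Fp S') n| ≤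
      Ek C₁ y X (Fp S) (Fp S') n := by
  have h1 : rK k c X S n = RK k c X S n := by unfold rK; rw [if_neg hn]
  have h2 : rK k c' X S' n = RK k c' X S' n := by unfold rK; rw [if_neg hn']
  rw [h1, h2, RR_eq hc hc', Mc_eq hc hc', ← Finset.sum_sub_distrib]
  have h3 : ∀ d ∈ roughs y X,
      (∑ d' ∈ roughs y X, c d * c' d' * (dk k d (Fp S n) * dk k d' (Fp S' n))) -
      (∑ d' ∈ roughs y X, c d * c' d' *
        (if Nat.Coprime d d' then dk k d (Fp S n) * dk k d' (Fp S' n) else 0)) =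
      ∑ d' ∈ roughs y X, c d * c' d' *
        (if Nat.Coprime d d' then 0 else dk k d (Fp S n) * dk k d' (Fp S' n)) := by
    intro d _
    rw [← Finset.sum_sub_distrib]
    refine Finset.sum_congr rfl fun d' _ => ?_
    split_ifs <;> ring
  rw [Finset.sum_congr rfl h3]
  refine (TaskTT.abs_dsum_le (roughs y X) c c' hc.bd hc'.bd
    (fun d d' => if Nat.Coprime d d' then 0 else dk k d (Fp S n) * dk k d' (Fp S' n))
    (fun d d' => if Nat.Coprime d d' then 0 else vk C₁ d (Fp S n) * vk C₁ d' (Fp S' n))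
    ?_ ?_).trans ?_
  · intro d hd d' hd' _ _
    split_ifs
    · simp
    · rw [abs_mul]
      exact mul_le_mul (dk_le_vk _ _ (hw d hd)) (dk_le_vk _ _ (hw d' hd')) (abs_nonneg _)
        (vk_nonneg hC _ _)
  · intro d _ d' _
    split_ifs
    · exact le_rfl
    · exact mul_nonneg (vk_nonneg hC _ _) (vk_nonneg hC _ _)
  · unfold Ek
    refine Finset.sum_le_sum fun d _ => ?_
    rw [Finset.sum_filter]
    refine Finset.sum_le_sum fun d' _ => ?_
    by_cases h : Nat.Coprime d d'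
    · rw [if_pos h, if_neg (not_not.2 h)]
    · rw [if_neg h, if_pos h]

theorem RK_bd (hC : 0 ≤ C₁) (hw : ∀ d ∈ roughs y X, kw k d ≤ C₁) (hc : CofK y X S c) :
    |RK k c X S n| ≤ X * (1 + C₁) := by
  rw [Pool.Agent.W45.KT.RK_eq]
  exact Pool.Agent.W45.KT.abs_RG_le (kw k) C₁ c hc.bd
    (fun d hd => ⟨Pool.Agent.W82.KT.kw_nonneg k d, hw d (c_mem hc d hd)⟩) hC X (Fp S) n

theorem rK_bd (hC : 0 ≤ C₁) (hw : ∀ d ∈ roughs y X, kw k d ≤ C₁) (hc : CofK y X S c) :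
    |rK k c X S n| ≤ X * (1 + C₁) := by
  unfold rK
  split_ifs
  · rw [abs_zero]; positivity
  · exact RK_bd hC hw hc

theorem Mc_bd (hC : 0 ≤ C₁) (hw : ∀ d ∈ roughs y X, kw k d ≤ C₁) (hc : CofK y X S c)
    (hc' : CofK y X S' c') :
    |Mc k c c' X (Fp S) (Fp S') n| ≤ (X * (1 + C₁)) * (X * (1 + C₁)) := by
  rw [Mc_eq hc hc']
  refine (TaskTT.abs_dsum_le (roughs y X) c c' hc.bd hc'.bd
    (fun d d' => if Nat.Coprime d d' then dk k d (Fp S n) * dk k d' (Fp S' n) else 0)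
    (fun _ _ => (1 + C₁) * (1 + C₁)) ?_ ?_).trans ?_
  · intro d hd d' hd' _ _
    split_ifs
    · rw [abs_mul]
      have h1 := hw d hd
      have h2 := hw d' hd'
      exact mul_le_mul ((dk_abs k d _).trans (by linarith)) ((dk_abs k d' _).trans (by linarith))
        (abs_nonneg _) (by linarith)
    · rw [abs_zero]; positivity
  · intro _ _ _ _; positivity
  · rw [Finset.sum_const, Finset.sum_const, nsmul_eq_mul, nsmul_eq_mul]
    have h3 := card_roughs y X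
    calc ((roughs y X).card : ℝ) * (((roughs y X).card : ℝ) * ((1 + C₁) * (1 + C₁))) ≤
        (X : ℝ) * (X * ((1 + C₁) * (1 + C₁))) := by gcongr
      _ = _ := by ring

theorem diff_bd (hC : 0 ≤ C₁) (hw : ∀ d ∈ roughs y X, kw k d ≤ C₁) (hc : CofK y X S c)
    (hc' : CofK y X S' c') :
    |rK k c X S n * rK k c' X S' n - Mc k c c' X (Fp S) (Fp S') n| ≤
      2 * ((X * (1 + C₁)) * (X * (1 + C₁))) := by
  have h1 : |rK k c X S n * rK k c' X S' n| ≤ (X * (1 + C₁)) * (X * (1 + C₁)) := by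
    rw [abs_mul]
    exact mul_le_mul (rK_bd hC hw hc) (rK_bd hC hw hc') (abs_nonneg _) (by positivity)
  have h2 := Mc_bd (n := n) hC hw hc hc'
  have h3 := abs_sub (rK k c X S n * rK k c' X S' n) (Mc k c c' X (Fp S) (Fp S') n)
  linarith

end

/-- the reciprocals of the rough numbers with a factor in common with `d` -/
theorem fixed_le {ε : ℝ} (hε : 0 < ε) {N X : ℕ} (hN : 2 ≤ N) (hXN : X ≤ N) (d : ℕ)
    (hd : d ∈ roughs ((N : ℝ) ^ ε) X) :
    ∑ d' ∈ (roughs ((N : ℝ) ^ ε) X).filter (fun d' => ¬ Nat.Coprime d d'), 1 / (d' : ℝ) ≤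
      1 / ε * ((1 + Real.log N) / (N : ℝ) ^ ε) := by
  classical
  have hN0 : (0 : ℝ) < N := by exact_mod_cast (by omega : 0 < N)
  have hlog : 0 ≤ Real.log N := Real.log_natCast_nonneg N
  have hy : 0 < (N : ℝ) ^ ε := Real.rpow_pos_of_pos hN0 _
  obtain ⟨⟨hd1, hdX⟩, hdR⟩ := mem_roughs.1 hd
  have hpf := Pool.Agent.W82.KT.omega_le hε hN hd1 (hdX.trans hXN) hdR.2
  calc ∑ d' ∈ (roughs ((N : ℝ) ^ ε) X).filter (fun d' => ¬ Nat.Coprime d d'), 1 / (d' : ℝ)
      ≤ ∑ d' ∈ (roughs ((N : ℝ) ^ ε) X).filter (fun d' => ¬ Nat.Coprime d d'),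
        ∑ l ∈ d.primeFactors, (if l ∣ d' then 1 / (d' : ℝ) else 0) := by
        refine Finset.sum_le_sum fun d' hd' => ?_
        rw [mem_filter] at hd'
        obtain ⟨l, hl, hl1, hl2⟩ := Nat.Prime.not_coprime_iff_dvd.1 hd'.2
        have hlm : l ∈ d.primeFactors := Nat.mem_primeFactors.2 ⟨hl, hl1, by omega⟩
        calc 1 / (d' : ℝ) = if l ∣ d' then 1 / (d' : ℝ) else 0 := by rw [if_pos hl2]
          _ ≤ _ := single_le_sum (f := fun l => if l ∣ d' then 1 / (d' : ℝ) else 0)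
            (fun l _ => by positivity) hlm
    _ ≤ ∑ d' ∈ Icc 1 N, ∑ l ∈ d.primeFactors, (if l ∣ d' then 1 / (d' : ℝ) else 0) := by
        refine sum_le_sum_of_subset_of_nonneg ?_ fun _ _ _ => sum_nonneg fun _ _ => by positivity
        exact (filter_subset _ _).trans ((roughs_sub _ X).trans (Finset.Icc_subset_Icc_right hXN))
    _ = ∑ l ∈ d.primeFactors, ∑ d' ∈ (Icc 1 N).filter (fun d' => l ∣ d'), 1 / (d' : ℝ) := by
        rw [sum_comm]
        refine sum_congr rfl fun l _ => ?_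
        rw [sum_filter]
    _ ≤ ∑ l ∈ d.primeFactors, (1 + Real.log N) / (N : ℝ) ^ ε := by
        refine sum_le_sum fun l hl => ?_
        have hlp := Nat.prime_of_mem_primeFactors hl
        have h1 := TaskRB.sum_mult N l hlp.one_le (by omega)
        refine h1.trans ?_
        exact div_le_div_of_nonneg_left (by linarith) hy
          (hdR.2 l hlp (Nat.dvd_of_mem_primeFactors hl)).le
    _ = (d.primeFactors.card : ℝ) * ((1 + Real.log N) / (N : ℝ) ^ ε) := by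
        rw [sum_const, nsmul_eq_mul]
    _ ≤ _ := mul_le_mul_of_nonneg_right hpf (by positivity)

/-- the sum over the pairs with a common factor -/
theorem Ek_le {C₁ y τ₀ H0 : ℝ} (hC : 0 ≤ C₁) (hτ0 : 0 ≤ τ₀) {X : ℕ}
    (hT : ∀ d ∈ roughs y X,
      ∑ d' ∈ (roughs y X).filter (fun d' => ¬ Nat.Coprime d d'), 1 / (d' : ℝ) ≤ τ₀)
    (hH : ∑ d ∈ roughs y X, 1 / (d : ℝ) ≤ H0) (F F' : ℤ → ℤ) (n : ℤ) :
    Ek C₁ y X F F' n ≤
      ∑ d ∈ roughs y X, ∑ d' ∈ (roughs y X).filter (fun d' => ¬ Nat.Coprime d d'),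
        II d (F n) * II d' (F' n) +
      C₁ * τ₀ * (((rd y X (F n)).card : ℝ) + ((rd y X (F' n)).card : ℝ) + C₁ * H0) := by
  set R := roughs y X with hR
  have h0 : Ek C₁ y X F F' n =
      ∑ d ∈ R, ∑ d' ∈ R.filter (fun d' => ¬ Nat.Coprime d d'), II d (F n) * II d' (F' n) +
      ∑ d ∈ R, ∑ d' ∈ R.filter (fun d' => ¬ Nat.Coprime d d'), C₁ / (d' : ℝ) * II d (F n) +
      ∑ d ∈ R, ∑ d' ∈ R.filter (fun d' => ¬ Nat.Coprime d d'), C₁ / (d : ℝ) * II d' (F' n) +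
      ∑ d ∈ R, ∑ d' ∈ R.filter (fun d' => ¬ Nat.Coprime d d'),
        C₁ / (d : ℝ) * (C₁ / (d' : ℝ)) := by
    unfold Ek vk
    simp only [← Finset.sum_add_distrib]
    refine Finset.sum_congr rfl fun d _ => Finset.sum_congr rfl fun d' _ => ?_
    ring
  have h2 : ∑ d ∈ R, ∑ d' ∈ R.filter (fun d' => ¬ Nat.Coprime d d'), C₁ / (d' : ℝ) * II d (F n) ≤
      C₁ * τ₀ * ((rd y X (F n)).card : ℝ) := by
    rw [← sum_II, Finset.mul_sum]
    refine Finset.sum_le_sum fun d hd => ?_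
    have e : ∑ d' ∈ R.filter (fun d' => ¬ Nat.Coprime d d'), C₁ / (d' : ℝ) * II d (F n) =
        C₁ * (∑ d' ∈ R.filter (fun d' => ¬ Nat.Coprime d d'), 1 / (d' : ℝ)) * II d (F n) := by
      rw [Finset.mul_sum, Finset.sum_mul]
      refine Finset.sum_congr rfl fun d' _ => ?_
      ring
    rw [e]
    exact mul_le_mul_of_nonneg_right (mul_le_mul_of_nonneg_left (hT d hd) hC) (II_nonneg _ _)
  have h3 : ∑ d ∈ R, ∑ d' ∈ R.filter (fun d' => ¬ Nat.Coprime d d'), C₁ / (d : ℝ) * II d' (F' n) ≤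
      C₁ * τ₀ * ((rd y X (F' n)).card : ℝ) := by
    have e0 : ∑ d ∈ R, ∑ d' ∈ R.filter (fun d' => ¬ Nat.Coprime d d'),
        C₁ / (d : ℝ) * II d' (F' n) =
        ∑ d' ∈ R, ∑ d ∈ R.filter (fun d => ¬ Nat.Coprime d' d), C₁ / (d : ℝ) * II d' (F' n) := by
      simp only [Finset.sum_filter]
      rw [Finset.sum_comm]
      refine Finset.sum_congr rfl fun d' _ => Finset.sum_congr rfl fun d _ => ?_
      by_cases h : Nat.Coprime d d'
      · rw [if_neg (not_not.2 h), if_neg (not_not.2 h.symm)]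
      · rw [if_pos h, if_pos (fun h' => h h'.symm)]
    rw [e0, ← sum_II, Finset.mul_sum]
    refine Finset.sum_le_sum fun d hd => ?_
    have e : ∑ d' ∈ R.filter (fun d' => ¬ Nat.Coprime d d'), C₁ / (d' : ℝ) * II d (F' n) =
        C₁ * (∑ d' ∈ R.filter (fun d' => ¬ Nat.Coprime d d'), 1 / (d' : ℝ)) * II d (F' n) := by
      rw [Finset.mul_sum, Finset.sum_mul]
      refine Finset.sum_congr rfl fun d' _ => ?_
      ring
    rw [e]
    exact mul_le_mul_of_nonneg_right (mul_le_mul_of_nonneg_left (hT d hd) hC) (II_nonneg _ _)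
  have h4 : ∑ d ∈ R, ∑ d' ∈ R.filter (fun d' => ¬ Nat.Coprime d d'),
      C₁ / (d : ℝ) * (C₁ / (d' : ℝ)) ≤ C₁ * τ₀ * (C₁ * H0) := by
    calc ∑ d ∈ R, ∑ d' ∈ R.filter (fun d' => ¬ Nat.Coprime d d'), C₁ / (d : ℝ) * (C₁ / (d' : ℝ))
        = ∑ d ∈ R, C₁ ^ 2 * (1 / (d : ℝ)) *
          ∑ d' ∈ R.filter (fun d' => ¬ Nat.Coprime d d'), 1 / (d' : ℝ) := by
          refine Finset.sum_congr rfl fun d _ => ?_
          rw [Finset.mul_sum]
          refine Finset.sum_congr rfl fun d' _ => ?_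
          ring
      _ ≤ ∑ d ∈ R, C₁ ^ 2 * (1 / (d : ℝ)) * τ₀ := by
          refine Finset.sum_le_sum fun d hd => ?_
          exact mul_le_mul_of_nonneg_left (hT d hd) (by positivity)
      _ = C₁ ^ 2 * τ₀ * ∑ d ∈ R, 1 / (d : ℝ) := by
          rw [Finset.mul_sum]
          refine Finset.sum_congr rfl fun d _ => ?_
          ring
      _ ≤ C₁ ^ 2 * τ₀ * H0 := mul_le_mul_of_nonneg_left hH (by positivity)
      _ = _ := by ring
  rw [h0]
  linarith

/-! ### the primes which divide both products -/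

/-- the primes larger than `y` dividing the determinant -/
noncomputable def Lp (y : ℝ) (L L' : ℤ × ℕ) : Finset ℕ :=
  ((L.1 * L'.2 - L'.1 * L.2 : ℤ).natAbs).primeFactors.filter (fun l : ℕ => y < (l : ℝ))

open Classical in
/-- the root of `L` modulo `l` -/
noncomputable def rt (L : ℤ × ℕ) (l : ℕ) : ℤ :=
  if h : ∃ r : ℤ, ∀ n : ℤ, (l : ℤ) ∣ lf L n → (l : ℤ) ∣ n - r then h.choose else 0

/-- the number of common large prime factors, majorant -/
noncomputable def JJ (y : ℝ) (S S' : Finset (ℤ × ℕ)) (n : ℤ) : ℝ :=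
  ∑ L ∈ S, ∑ L' ∈ S', ∑ l ∈ Lp y L L', II l (n - rt L l)

theorem JJ_nonneg (y : ℝ) (S S' : Finset (ℤ × ℕ)) (n : ℤ) : 0 ≤ JJ y S S' n :=
  sum_nonneg fun _ _ => sum_nonneg fun _ _ => sum_nonneg fun _ _ => II_nonneg _ _

theorem S1_le {k M N : ℕ} (y : ℝ) (X : ℕ) {S S' : Finset (ℤ × ℕ)} (hS : Sys k M N S)
    (hS' : Sys k M N S') (hSS : Disjoint S S') (n : ℤ) :
    ∑ d ∈ roughs y X, ∑ d' ∈ (roughs y X).filter (fun d' => ¬ Nat.Coprime d d'),
      II d (Fp S n) * II d' (Fp S' n) ≤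
      ((rd y X (Fp S n)).card : ℝ) * ((rd y X (Fp S' n)).card : ℝ) * JJ y S S' n := by
  classical
  have hJ := JJ_nonneg y S S' n
  set E := ∑ d ∈ roughs y X, ∑ d' ∈ (roughs y X).filter (fun d' => ¬ Nat.Coprime d d'),
      II d (Fp S n) * II d' (Fp S' n) with hE
  by_cases h0 : E = 0
  · rw [h0]
    positivity
  obtain ⟨d, hd, hd2⟩ := exists_ne_zero_of_sum_ne_zero h0
  obtain ⟨d', hd', hd2'⟩ := exists_ne_zero_of_sum_ne_zero hd2
  have hdv1 : (d : ℤ) ∣ Fp S n := by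
    by_contra hc
    exact hd2' (by unfold II; rw [if_neg hc, zero_mul])
  have hdv2 : (d' : ℤ) ∣ Fp S' n := by
    by_contra hc
    exact hd2' (by unfold II; rw [if_neg hc, mul_zero])
  rw [mem_filter] at hd'
  obtain ⟨l, hl, hldd⟩ := Nat.exists_prime_and_dvd (n := Nat.gcd d d') (fun h => hd'.2 h)
  have hld : l ∣ d := hldd.trans (Nat.gcd_dvd_left _ _)
  have hld' : l ∣ d' := hldd.trans (Nat.gcd_dvd_right _ _)
  have hRd : Rough y d := (mem_roughs.1 hd).2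
  have hlr := TaskNC.rough_prime y d l hRd hl hld
  have hlp : Prime (l : ℤ) := Nat.prime_iff_prime_int.1 hl
  have hla0 : (l : ℤ) ∣ Fp S n := (Int.natCast_dvd_natCast.2 hld).trans hdv1
  have hla0' : (l : ℤ) ∣ Fp S' n := (Int.natCast_dvd_natCast.2 hld').trans hdv2
  obtain ⟨L, hL, hla⟩ := (Prime.dvd_finsetProd_iff hlp _).1 hla0
  obtain ⟨L', hL', hla'⟩ := (Prime.dvd_finsetProd_iff hlp _).1 hla0'
  have hlaa : (l : ℤ) ∣ L.1 * L'.2 - L'.1 * L.2 := by
    have := dvd_sub (hla.mul_left (L'.2 : ℤ)) (hla'.mul_left (L.2 : ℤ))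
    unfold lf at this
    have e : (L'.2 : ℤ) * (L.1 + (L.2 : ℤ) * n) - (L.2 : ℤ) * (L'.1 + (L'.2 : ℤ) * n) =
        L.1 * L'.2 - L'.1 * L.2 := by ring
    rwa [e] at this
  have hne : L ≠ L' := fun h => disjoint_left.1 hSS hL (h ▸ hL')
  have hD0 := Pool.Agent.W358.KT.TaskNCK.det_ne_zero (hS.fo L hL) (hS'.fo L' hL') hne
  have hlL : l ∈ Lp y L L' := by
    unfold Lp
    rw [mem_filter]
    exact ⟨Nat.mem_primeFactors.2 ⟨hl, Int.natCast_dvd.1 hlaa, Int.natAbs_ne_zero.2 hD0⟩, hlr.1⟩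
  have hrt : (l : ℤ) ∣ n - rt L l := by
    have hex := Pool.Agent.W358.KT.TaskNCK.class_ex (hS.fo L hL) l hl
    unfold rt
    rw [dif_pos hex]
    exact hex.choose_spec n hla
  have hsum1 : (1 : ℝ) ≤ JJ y S S' n := by
    have h1 : II l (n - rt L l) = 1 := by unfold II; rw [if_pos hrt]
    unfold JJ
    calc (1 : ℝ) = II l (n - rt L l) := h1.symm
      _ ≤ ∑ l ∈ Lp y L L', II l (n - rt L l) :=
        single_le_sum (f := fun l : ℕ => II l (n - rt L l)) (fun l _ => II_nonneg _ _) hlL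
      _ ≤ ∑ L' ∈ S', ∑ l ∈ Lp y L L', II l (n - rt L l) :=
        single_le_sum (f := fun L' => ∑ l ∈ Lp y L L', II l (n - rt L l))
          (fun L' _ => sum_nonneg fun l _ => II_nonneg _ _) hL'
      _ ≤ _ := single_le_sum (f := fun L => ∑ L' ∈ S', ∑ l ∈ Lp y L L', II l (n - rt L l))
          (fun L _ => sum_nonneg fun L' _ => sum_nonneg fun l _ => II_nonneg _ _) hL
  have hEle : E ≤ ((rd y X (Fp S n)).card : ℝ) * ((rd y X (Fp S' n)).card : ℝ) := by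
    calc E ≤ ∑ d ∈ roughs y X, ∑ d' ∈ roughs y X, II d (Fp S n) * II d' (Fp S' n) := by
          refine sum_le_sum fun d _ => ?_
          refine sum_le_sum_of_subset_of_nonneg (filter_subset _ _) fun d' _ _ => ?_
          exact mul_nonneg (II_nonneg _ _) (II_nonneg _ _)
      _ = _ := by
          rw [← sum_II, ← sum_II, sum_mul_sum]
  have h5 : (0 : ℝ) ≤ ((rd y X (Fp S n)).card : ℝ) * ((rd y X (Fp S' n)).card : ℝ) := by positivity
  nlinarith

/-- the sum of the majorant -/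
theorem JJ_sum {k M N : ℕ} {ε : ℝ} (hε : 0 < ε) (hN : 2 ≤ N) {S S' : Finset (ℤ × ℕ)}
    (hS : Sys k M N S) (hS' : Sys k M N S') (hSS : Disjoint S S') :
    Summable (fun n : ℤ => Wt (2 * N) n * JJ ((N : ℝ) ^ ε) S S' n) ∧
      ∑' n : ℤ, Wt (2 * N) n * JJ ((N : ℝ) ^ ε) S S' n ≤
        (k : ℝ) ^ 2 * (((2 * M + 1 : ℕ) : ℝ) / ε * (4 * (2 * N / (N : ℝ) ^ ε + 1))) := by
  have hN0 : (0 : ℝ) < N := by exact_mod_cast (by omega : 0 < N)
  have hy : 0 < (N : ℝ) ^ ε := Real.rpow_pos_of_pos hN0 _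
  have h2N : 1 ≤ 2 * N := by omega
  have hne : ∀ L ∈ S, ∀ L' ∈ S', L ≠ L' := fun L hL L' hL' h =>
    disjoint_left.1 hSS hL (h ▸ hL')
  have hone : ∀ L : ℤ × ℕ, ∀ L' : ℤ × ℕ, ∀ l ∈ Lp ((N : ℝ) ^ ε) L L',
      Summable (fun n : ℤ => Wt (2 * N) n * II l (n - rt L l)) ∧
      ∑' n : ℤ, Wt (2 * N) n * II l (n - rt L l) ≤ 4 * (2 * N / (N : ℝ) ^ ε + 1) := by
    intro L L' l hl
    unfold Lp at hl
    rw [mem_filter] at hl
    have hlp : l.Prime := Nat.prime_of_mem_primeFactors hl.1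
    have h3 := Pool.Agent.W372.PL.tsW (2 * N) h2N l hlp.one_le (rt L l)
    refine ⟨h3.1, h3.2.trans ?_⟩
    have h4 : ((2 * N : ℕ) : ℝ) / l ≤ 2 * N / (N : ℝ) ^ ε := by
      push_cast
      exact div_le_div_of_nonneg_left (by positivity) hy hl.2.le
    linarith
  have hcard : ∀ L ∈ S, ∀ L' ∈ S', ((Lp ((N : ℝ) ^ ε) L L').card : ℝ) ≤
      ((2 * M + 1 : ℕ) : ℝ) / ε := by
    intro L hL L' hL'
    refine Pool.Agent.W358.KT.TaskNCK.card_primes hN hε _
      (Int.natAbs_ne_zero.2 (Pool.Agent.W358.KT.TaskNCK.det_ne_zero (hS.fo L hL) (hS'.fo L' hL')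
        (hne L hL L' hL')))
      (Pool.Agent.W358.KT.TaskNCK.det_le hN (hS.fo L hL) (hS'.fo L' hL')) _ fun l hl => ?_
    unfold Lp at hl
    rw [mem_filter] at hl
    exact hl
  have hfun : (fun n : ℤ => Wt (2 * N) n * JJ ((N : ℝ) ^ ε) S S' n) =
      fun n : ℤ => ∑ L ∈ S, ∑ L' ∈ S', ∑ l ∈ Lp ((N : ℝ) ^ ε) L L',
        Wt (2 * N) n * II l (n - rt L l) := by
    funext n
    unfold JJ
    rw [Finset.mul_sum]
    refine Finset.sum_congr rfl fun L _ => ?_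
    rw [Finset.mul_sum]
    refine Finset.sum_congr rfl fun L' _ => ?_
    rw [Finset.mul_sum]
  have s1 : ∀ L L', Summable (fun n : ℤ => ∑ l ∈ Lp ((N : ℝ) ^ ε) L L',
      Wt (2 * N) n * II l (n - rt L l)) := fun L L' => summable_sum fun l hl => (hone L L' l hl).1
  have s2 : ∀ L, Summable (fun n : ℤ => ∑ L' ∈ S', ∑ l ∈ Lp ((N : ℝ) ^ ε) L L',
      Wt (2 * N) n * II l (n - rt L l)) := fun L => summable_sum fun L' _ => s1 L L'
  rw [hfun]
  refine ⟨summable_sum fun L _ => s2 L, ?_⟩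
  rw [Summable.tsum_finsetSum fun L _ => s2 L]
  calc _ ≤ ∑ L ∈ S, (k : ℝ) * (((2 * M + 1 : ℕ) : ℝ) / ε * (4 * (2 * N / (N : ℝ) ^ ε + 1))) := by
        refine sum_le_sum fun L hL => ?_
        rw [Summable.tsum_finsetSum fun L' _ => s1 L L']
        calc _ ≤ ∑ L' ∈ S', ((2 * M + 1 : ℕ) : ℝ) / ε * (4 * (2 * N / (N : ℝ) ^ ε + 1)) := by
              refine sum_le_sum fun L' hL' => ?_
              rw [Summable.tsum_finsetSum fun l hl => (hone L L' l hl).1]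
              calc _ ≤ ∑ l ∈ Lp ((N : ℝ) ^ ε) L L', 4 * (2 * N / (N : ℝ) ^ ε + 1) :=
                    sum_le_sum fun l hl => (hone L L' l hl).2
                _ = ((Lp ((N : ℝ) ^ ε) L L').card : ℝ) * (4 * (2 * N / (N : ℝ) ^ ε + 1)) := by
                    rw [sum_const, nsmul_eq_mul]
                _ ≤ _ := mul_le_mul_of_nonneg_right (hcard L hL L' hL') (by positivity)
          _ = _ := by rw [sum_const, nsmul_eq_mul, hS'.card]
    _ = _ := by
        rw [sum_const, nsmul_eq_mul, hS.card]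
        ring

end Pool.Agent.W108.KS
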