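import Pool.Agent.W108.KS.OFDK2

set_option autoImplicit false

/-!
KS project, task OFDK, part 3 (helper108): bounds for the weight, the total sum.
-/

namespace Pool.Agent.W108.KS

open Finset
open Pool.Agent.H442R2
open Pool.Agent.H442R2.KF
open Pool.Agent.H442R2.BX
open Pool.Agent.H442R2.BX.TaskEX
open Pool.Agent.W23.DC
open Pool.Agent.W23.SG
open Pool.Agent.W23.PL
open Pool.Agent.W23.KT
open Pool.Agent.W23.KS
open Pool.Agent.W372.PL (SI co Ev_eq sqf_lcm II_nonneg II_le_one mem_roughs roughs_sub sum_II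
  card_roughs harm Ev_abs_le Ev_le_tau nuS_le_tau tsW1)

/-- the divisor bound at the points `n`, `F(n)`, `F'(n)` -/
theorem G_gen {k M : ℕ} (hk : 1 ≤ k) (κ Cτ : ℝ) (hκ : 0 < κ)
    (hκ8 : (((M + 1) * k : ℕ) : ℝ) * κ ≤ 1 / 8) (hCτ : 0 < Cτ)
    (hτ : ∀ n : ℕ, 1 ≤ n → (n.divisors.card : ℝ) ≤ Cτ * (n : ℝ) ^ κ)
    (N z D : ℕ) (hN : 1 ≤ N) (U : ℝ) (P P' : Finset ℕ) (lam th th' : ℕ → ℝ)
    (hl : ∀ q, |lam q| ≤ 1)
    (hth : DW P D U th) (hth' : DW P' D U th') (_hp : ∀ m : ℤ, 0 ≤ Ev th D m)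
    (hp' : ∀ m : ℤ, 0 ≤ Ev th' D m) (S S' : Finset (ℤ × ℕ)) (hS : Sys k M N S)
    (hS' : Sys k M N S') (n : ℤ)
    (hn : n ≠ 0) (hna : Fp S n ≠ 0) (hna' : Fp S' n ≠ 0) :
    Wt N n * (nuS lam z n * (Ev th D (Fp S n) * Ev th' D (Fp S' n))) ≤
      (Cτ ^ 4 * U ^ 2 * (N : ℝ) ^ (4 * ((((M + 1) * k : ℕ) : ℝ) * κ))) *
        (1 + |(n : ℝ)| / N) ^ (1 / 2 : ℝ) * Wt N n := by
  have hU : 0 ≤ U := (abs_nonneg _).trans (hth.bd 0)
  have hN0 : (0 : ℝ) < N := by exact_mod_cast (by omega : 0 < N)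
  have hN1 : (1 : ℝ) ≤ N := by exact_mod_cast hN
  set m : ℕ := (M + 1) * k with hm
  have hm1 : 1 ≤ m := Nat.mul_pos (Nat.succ_pos M) hk
  have hkm : k ≤ m := Nat.le_mul_of_pos_left k (Nat.succ_pos M)
  set x := 1 + |(n : ℝ)| / N with hx
  have hx1 : 1 ≤ x := by
    have : 0 ≤ |(n : ℝ)| / N := by positivity
    linarith
  have hNx : (N : ℝ) * x = N + |(n : ℝ)| := by
    rw [hx]; field_simp
  have hNx1 : 1 ≤ (N : ℝ) * x := by
    rw [hNx]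
    have := abs_nonneg (n : ℝ)
    linarith
  set κ' : ℝ := (m : ℝ) * κ with hκ'
  have hκ'0 : 0 < κ' := by
    have : (1 : ℝ) ≤ m := by exact_mod_cast hm1
    positivity
  set T := Cτ * ((N : ℝ) * x) ^ κ' with hT
  have hT0 : 0 ≤ T := by positivity
  have key : ∀ t : ℤ, t ≠ 0 → ((t.natAbs : ℕ) : ℝ) ≤ ((N : ℝ) * x) ^ m →
      (t.natAbs.divisors.card : ℝ) ≤ T := by
    intro t ht htx
    have h1 := hτ t.natAbs (Int.natAbs_pos.2 ht)
    refine h1.trans ?_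
    rw [hT]
    refine mul_le_mul_of_nonneg_left ?_ hCτ.le
    calc ((t.natAbs : ℕ) : ℝ) ^ κ ≤ (((N : ℝ) * x) ^ m) ^ κ :=
          Real.rpow_le_rpow (by positivity) htx hκ.le
      _ = ((N : ℝ) * x) ^ κ' := by
          rw [← Real.rpow_natCast ((N : ℝ) * x) m, ← Real.rpow_mul (by positivity)]
  have h1 : nuS lam z n ≤ T ^ 2 := by
    refine (nuS_le_tau lam z hl n hn).trans ?_
    refine pow_le_pow_left₀ (by positivity) (key n hn ?_) 2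
    calc ((n.natAbs : ℕ) : ℝ) = |(n : ℝ)| := by rw [Nat.cast_natAbs, Int.cast_abs]
      _ ≤ (N : ℝ) * x := by rw [hNx]; linarith
      _ ≤ ((N : ℝ) * x) ^ m := le_self_pow₀ hNx1 (by omega)
  have h2 : ∀ (Q : Finset ℕ) (V : Finset (ℤ × ℕ)) (t : ℕ → ℝ), Sys k M N V → DW Q D U t →
      Fp V n ≠ 0 → Ev t D (Fp V n) ≤ U * T := by
    intro Q V t hV ht hnb
    refine (Ev_le_tau Q D U t ht (Fp V n) hnb).trans ?_
    refine mul_le_mul_of_nonneg_left (key _ hnb ?_) hU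
    have h3 := Pool.Agent.W82.KT.Fp_le hN1 hV n
    refine h3.trans ?_
    rw [mul_pow]
    exact mul_le_mul_of_nonneg_left (pow_le_pow_right₀ hx1 hkm) (by positivity)
  have h3 := h2 P S th hS hth hna
  have h4 := h2 P' S' th' hS' hth' hna'
  have h5 : T ^ 4 ≤ Cτ ^ 4 * (N : ℝ) ^ (4 * κ') * x ^ (1 / 2 : ℝ) := by
    have e1 : T ^ 4 = Cτ ^ 4 * ((N : ℝ) ^ (4 * κ') * x ^ (4 * κ')) := by
      rw [hT, mul_pow, ← Real.rpow_natCast, ← Real.rpow_natCast, ← Real.rpow_mul (by positivity),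
        ← Real.mul_rpow hN0.le (by linarith)]
      push_cast
      rw [mul_comm κ' 4]
    rw [e1]
    have e2 : x ^ (4 * κ') ≤ x ^ (1 / 2 : ℝ) :=
      Real.rpow_le_rpow_of_exponent_le hx1 (by linarith)
    have e3 : (0 : ℝ) ≤ Cτ ^ 4 * (N : ℝ) ^ (4 * κ') := by positivity
    calc Cτ ^ 4 * ((N : ℝ) ^ (4 * κ') * x ^ (4 * κ')) =
          Cτ ^ 4 * (N : ℝ) ^ (4 * κ') * x ^ (4 * κ') := by ring
      _ ≤ _ := mul_le_mul_of_nonneg_left e2 e3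
  have hW := (Wt_pos N n).le
  have h6 : Ev th D (Fp S n) * Ev th' D (Fp S' n) ≤ (U * T) * (U * T) :=
    mul_le_mul h3 h4 (hp' _) (by positivity)
  calc Wt N n * (nuS lam z n * (Ev th D (Fp S n) * Ev th' D (Fp S' n)))
      ≤ Wt N n * (T ^ 2 * ((U * T) * (U * T))) := by
        refine mul_le_mul_of_nonneg_left ?_ hW
        exact mul_le_mul h1 h6 (mul_nonneg (_hp _) (hp' _)) (by positivity)
    _ = U ^ 2 * Wt N n * T ^ 4 := by ring
    _ ≤ U ^ 2 * Wt N n * (Cτ ^ 4 * (N : ℝ) ^ (4 * κ') * x ^ (1 / 2 : ℝ)) :=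
        mul_le_mul_of_nonneg_left h5 (by positivity)
    _ = _ := by ring

theorem G_crude (z D : ℕ) (U : ℝ) (P P' : Finset ℕ) (lam th th' : ℕ → ℝ)
    (hl : ∀ q, |lam q| ≤ 1) (hth : DW P D U th) (hth' : DW P' D U th') (n a a' : ℤ) :
    |nuS lam z n * (Ev th D a * Ev th' D a')| ≤ (z : ℝ) ^ 2 * (D : ℝ) ^ 2 * U ^ 2 := by
  have hU : 0 ≤ U := (abs_nonneg _).trans (hth.bd 0)
  have h1 := TaskTT.nuS_le lam hl z n
  have h2 := Ev_abs_le P D U th hth a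
  have h3 := Ev_abs_le P' D U th' hth' a'
  rw [abs_mul, abs_mul, abs_of_nonneg (TaskTT.nuS_nonneg lam z n)]
  calc nuS lam z n * (|Ev th D a| * |Ev th' D a'|)
      ≤ (z : ℝ) ^ 2 * ((D * U) * (D * U)) :=
        mul_le_mul h1 (mul_le_mul h2 h3 (abs_nonneg _) (by positivity)) (by positivity)
          (by positivity)
    _ = _ := by ring

theorem alg_gen (G K1 xh xq x W W2 C0 A A' J E t H : ℝ) (hK1 : 0 ≤ K1) (hW : 0 ≤ W)
    (hxh : 0 ≤ xh) (hxq : 1 ≤ xq) (hqq : xq * xq = xh) (hx2 : xh * xh = x) (hx3 : xh * xq ≤ x)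
    (hG : G ≤ K1 * xh * W) (hA0 : 0 ≤ A) (hA0' : 0 ≤ A') (hA : A ≤ C0 * xq) (hA' : A' ≤ C0 * xq)
    (hJ : 0 ≤ J) (ht : 0 ≤ t) (hH : 0 ≤ H) (hE : E ≤ A * A' * J + t * (A + A' + H))
    (hC0 : 0 ≤ C0) (hE0 : 0 ≤ E) (hWx : W * x ≤ 2 * W2) :
    G * E ≤ 2 * K1 * (C0 ^ 2 * (W2 * J) + t * (2 * C0 + H) * W2) := by
  have a1 : A * A' ≤ C0 ^ 2 * xh := by
    calc A * A' ≤ (C0 * xq) * (C0 * xq) := mul_le_mul hA hA' hA0' (hA0.trans hA)
      _ = C0 ^ 2 * (xq * xq) := by ring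
      _ = C0 ^ 2 * xh := by rw [hqq]
  have a2 : A + A' + H ≤ (2 * C0 + H) * xq := by
    have : H ≤ H * xq := le_mul_of_one_le_right hH hxq
    linarith
  have a3 : E ≤ C0 ^ 2 * xh * J + t * ((2 * C0 + H) * xq) := by
    have b1 := mul_le_mul_of_nonneg_right a1 hJ
    have b2 := mul_le_mul_of_nonneg_left a2 ht
    linarith
  have hs : 0 ≤ C0 ^ 2 * J + t * (2 * C0 + H) := by positivity
  calc G * E ≤ (K1 * xh * W) * E := mul_le_mul_of_nonneg_right hG hE0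
    _ ≤ (K1 * xh * W) * (C0 ^ 2 * xh * J + t * ((2 * C0 + H) * xq)) :=
        mul_le_mul_of_nonneg_left a3 (by positivity)
    _ = (K1 * W) * (C0 ^ 2 * J * (xh * xh) + t * (2 * C0 + H) * (xh * xq)) := by ring
    _ ≤ (K1 * W) * (C0 ^ 2 * J * x + t * (2 * C0 + H) * x) := by
        refine mul_le_mul_of_nonneg_left ?_ (by positivity)
        rw [hx2]
        have : t * (2 * C0 + H) * (xh * xq) ≤ t * (2 * C0 + H) * x :=
          mul_le_mul_of_nonneg_left hx3 (by positivity)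
        linarith
    _ = (W * x) * (K1 * (C0 ^ 2 * J + t * (2 * C0 + H))) := by ring
    _ ≤ (2 * W2) * (K1 * (C0 ^ 2 * J + t * (2 * C0 + H))) :=
        mul_le_mul_of_nonneg_right hWx (by positivity)
    _ = _ := by ring

/-- the sum, given the bound for the coprime pairs -/
theorem total (k M N z D X : ℕ) (hk : 1 ≤ k) (hN : 2 ≤ N) (hXN : X ≤ N) (ε : ℝ) (hε : 0 < ε)
    (U : ℝ) (P P' : Finset ℕ)
    (lam th th' : ℕ → ℝ) (hl : ∀ q, |lam q| ≤ 1) (hth : DW P D U th) (hth' : DW P' D U th')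
    (hp : ∀ m : ℤ, 0 ≤ Ev th D m) (hp' : ∀ m : ℤ, 0 ≤ Ev th' D m) (S S' : Finset (ℤ × ℕ))
    (hS : Sys k M N S) (hS' : Sys k M N S') (hSS : Disjoint S S') (c c' : ℕ → ℝ)
    (hc : CofK ((N : ℝ) ^ ε) X S c) (hc' : CofK ((N : ℝ) ^ ε) X S' c') (C₁ : ℝ) (hC₁ : 0 ≤ C₁)
    (hw : ∀ d ∈ roughs ((N : ℝ) ^ ε) X, kw k d ≤ C₁) (C0 : ℝ) (hC0 : 0 ≤ C0)
    (hrc : ∀ V : Finset (ℤ × ℕ), Sys k M N V → ∀ n : ℤ, Fp V n ≠ 0 →
      ((rd ((N : ℝ) ^ ε) X (Fp V n)).card : ℝ) ≤ C0 * (1 + |(n : ℝ)| / N) ^ (1 / 4 : ℝ))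
    (κ Cτ : ℝ) (hκ : 0 < κ) (hκ8 : (((M + 1) * k : ℕ) : ℝ) * κ ≤ 1 / 8) (hCτ : 0 < Cτ)
    (hτ : ∀ n : ℕ, 1 ≤ n → (n.divisors.card : ℝ) ≤ Cτ * (n : ℝ) ^ κ)
    (B : ℝ) (hB : |∑' n : ℤ, Wt N n * nuS lam z n * (Ev th D (Fp S n) * Ev th' D (Fp S' n)) *
      Mc k c c' X (Fp S) (Fp S') n| ≤ B) :
    |∑' n : ℤ, Wt N n * nuS lam z n * (Ev th D (Fp S n) * Ev th' D (Fp S' n)) *
      (rK k c X S n * rK k c' X S' n)| ≤ B +
      (2 * k + 1) * ((z : ℝ) ^ 2 * (D : ℝ) ^ 2 * U ^ 2 *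
        (2 * ((X * (1 + C₁)) * (X * (1 + C₁))))) +
      2 * (Cτ ^ 4 * U ^ 2 * (N : ℝ) ^ (4 * ((((M + 1) * k : ℕ) : ℝ) * κ))) *
        (C0 ^ 2 * ((k : ℝ) ^ 2 * (((2 * M + 1 : ℕ) : ℝ) / ε * (4 * (2 * N / (N : ℝ) ^ ε + 1)))) +
        (C₁ * (1 / ε * ((1 + Real.log N) / (N : ℝ) ^ ε))) * (2 * C0 + C₁ * (1 + Real.log N)) *
          (4 * (2 * N + 1))) := by
  classical
  have hN0 : (0 : ℝ) < N := by exact_mod_cast (by omega : 0 < N)
  have hlog : 0 ≤ Real.log N := Real.log_natCast_nonneg N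
  have hU : 0 ≤ U := (abs_nonneg _).trans (hth.bd 0)
  set A1 : ℝ := (z : ℝ) ^ 2 * (D : ℝ) ^ 2 * U ^ 2 with hA1
  have hA10 : 0 ≤ A1 := by positivity
  set g : ℤ → ℝ := fun n => nuS lam z n * (Ev th D (Fp S n) * Ev th' D (Fp S' n)) with hg
  have hg0 : ∀ n, 0 ≤ g n := fun n => mul_nonneg (TaskTT.nuS_nonneg lam z n)
    (mul_nonneg (hp _) (hp' _))
  have hgA : ∀ n, g n ≤ A1 := fun n =>
    (le_abs_self _).trans (G_crude z D U P P' lam th th' hl hth hth' n _ _)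
  set H : ℤ → ℝ := fun n => rK k c X S n * rK k c' X S' n - Mc k c c' X (Fp S) (Fp S') n with hH
  set Xb : ℝ := (X * (1 + C₁)) * (X * (1 + C₁)) with hXb
  have hXb0 : 0 ≤ Xb := by positivity
  -- summability
  have hs1 : Summable (fun n : ℤ => Wt N n * (g n * (rK k c X S n * rK k c' X S' n))) := by
    refine summable_bd N (by omega) _ (A1 * Xb) fun n => ?_
    rw [abs_mul (g n), abs_mul (rK k c X S n), abs_of_nonneg (hg0 n)]
    exact mul_le_mul (hgA n) (mul_le_mul (rK_bd hC₁ hw hc)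
      (rK_bd hC₁ hw hc') (abs_nonneg _) (by positivity)) (by positivity) hA10
  have hs2 : Summable (fun n : ℤ => Wt N n * (g n * Mc k c c' X (Fp S) (Fp S') n)) := by
    refine summable_bd N (by omega) _ (A1 * Xb) fun n => ?_
    rw [abs_mul (g n), abs_of_nonneg (hg0 n)]
    exact mul_le_mul (hgA n) (Mc_bd hC₁ hw hc hc') (abs_nonneg _) hA10
  have hsplit : ∑' n : ℤ, Wt N n * nuS lam z n * (Ev th D (Fp S n) * Ev th' D (Fp S' n)) *
      (rK k c X S n * rK k c' X S' n) =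
      ∑' n : ℤ, Wt N n * nuS lam z n * (Ev th D (Fp S n) * Ev th' D (Fp S' n)) *
        Mc k c c' X (Fp S) (Fp S') n + ∑' n : ℤ, Wt N n * g n * H n := by
    have e1 : ∑' n : ℤ, Wt N n * nuS lam z n * (Ev th D (Fp S n) * Ev th' D (Fp S' n)) *
        (rK k c X S n * rK k c' X S' n) =
        ∑' n : ℤ, Wt N n * (g n * (rK k c X S n * rK k c' X S' n)) :=
      tsum_congr fun n => by rw [hg]; ring
    have e2 : ∑' n : ℤ, Wt N n * nuS lam z n * (Ev th D (Fp S n) * Ev th' D (Fp S' n)) *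
        Mc k c c' X (Fp S) (Fp S') n =
        ∑' n : ℤ, Wt N n * (g n * Mc k c c' X (Fp S) (Fp S') n) :=
      tsum_congr fun n => by rw [hg]; ring
    have e3 : ∑' n : ℤ, Wt N n * g n * H n =
        ∑' n : ℤ, (Wt N n * (g n * (rK k c X S n * rK k c' X S' n)) -
          Wt N n * (g n * Mc k c c' X (Fp S) (Fp S') n)) :=
      tsum_congr fun n => by rw [hH]; ring
    rw [e1, e2, e3, Summable.tsum_sub hs1 hs2]
    ring
  -- the majorant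
  set K1 : ℝ := Cτ ^ 4 * U ^ 2 * (N : ℝ) ^ (4 * ((((M + 1) * k : ℕ) : ℝ) * κ)) with hK1
  have hK10 : 0 ≤ K1 := by positivity
  set K2 : ℝ := A1 * (2 * Xb) with hK2
  have hK20 : 0 ≤ K2 := by positivity
  set t0 : ℝ := C₁ * (1 / ε * ((1 + Real.log N) / (N : ℝ) ^ ε)) with ht0
  have ht00 : 0 ≤ t0 := by positivity
  set H0 : ℝ := C₁ * (1 + Real.log N) with hH0
  have hH00 : 0 ≤ H0 := by positivity
  obtain ⟨hJs, hJt⟩ := JJ_sum (M := M) hε hN hS hS' hSS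
  obtain ⟨hWs, hWt⟩ := tsW1 (2 * N) (by omega)
  have hWs' : Summable (fun n : ℤ => Wt (2 * N) n) := by
    refine hWs.congr fun n => ?_
    rw [II_one, mul_one]
  have hWt' : ∑' n : ℤ, Wt (2 * N) n ≤ 4 * (2 * N + 1) := by
    have e : ∑' n : ℤ, Wt (2 * N) n = ∑' n : ℤ, Wt (2 * N) n * II 1 n :=
      tsum_congr fun n => by rw [II_one, mul_one]
    rw [e]
    refine hWt.trans (le_of_eq ?_)
    push_cast
    ring
  obtain ⟨Z, hZ1, hZ⟩ := Pool.Agent.W45.KT.zeros k M N S hS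
  obtain ⟨Z', hZ1', hZ'⟩ := Pool.Agent.W45.KT.zeros k M N S' hS'
  set Z0 : Finset ℤ := insert 0 (Z ∪ Z') with hZ0
  have hZ0c : (Z0.card : ℝ) ≤ 2 * k + 1 := by
    have h1 : Z0.card ≤ 2 * k + 1 := by
      rw [hZ0]
      have h2 := Finset.card_insert_le (0 : ℤ) (Z ∪ Z')
      have h3 := Finset.card_union_le Z Z'
      omega
    exact_mod_cast h1
  have hpt : ∀ n : ℤ, ‖Wt N n * g n * H n‖ ≤ (if n ∈ Z0 then K2 else 0) +
      2 * K1 * (C0 ^ 2 * (Wt (2 * N) n * JJ ((N : ℝ) ^ ε) S S' n) +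
        t0 * (2 * C0 + H0) * Wt (2 * N) n) := by
    intro n
    have hJ0 := JJ_nonneg ((N : ℝ) ^ ε) S S' n
    have hW20 := (Wt_pos (2 * N) n).le
    have hM1 : 0 ≤ 2 * K1 * (C0 ^ 2 * (Wt (2 * N) n * JJ ((N : ℝ) ^ ε) S S' n) +
        t0 * (2 * C0 + H0) * Wt (2 * N) n) := by positivity
    rw [Real.norm_eq_abs, abs_mul, abs_of_nonneg (mul_nonneg (Wt_pos N n).le (hg0 n))]
    by_cases hsp : n ∈ Z0
    · rw [if_pos hsp]
      have h1 : |H n| ≤ 2 * Xb := diff_bd hC₁ hw hc hc'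
      have h4 : Wt N n * g n ≤ A1 := by
        calc Wt N n * g n ≤ 1 * A1 :=
              mul_le_mul (TaskTT.Wt_le_one N n) (hgA n) (hg0 n) zero_le_one
          _ = A1 := one_mul _
      have h5 : Wt N n * g n * |H n| ≤ K2 :=
        mul_le_mul h4 h1 (abs_nonneg _) hA10
      linarith
    · rw [if_neg hsp, zero_add]
      rw [hZ0, Finset.mem_insert, Finset.mem_union, hZ n, hZ' n] at hsp
      push Not at hsp
      obtain ⟨hn0, hna, hna'⟩ := hsp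
      have h1 : |H n| ≤ Ek C₁ ((N : ℝ) ^ ε) X (Fp S) (Fp S') n := diff_le hC₁ hw hc hc' hna hna'
      have hE0 : 0 ≤ Ek C₁ ((N : ℝ) ^ ε) X (Fp S) (Fp S') n := (abs_nonneg _).trans h1
      have h2 := G_gen hk κ Cτ hκ hκ8 hCτ hτ N z D (by omega) U P P' lam th th' hl hth hth' hp
        hp' S S' hS hS' n hn0 hna hna'
      set x := 1 + |(n : ℝ)| / N with hx
      have hx1 : 1 ≤ x := by
        have : 0 ≤ |(n : ℝ)| / N := by positivity
        linarith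
      have hx0 : 0 < x := by linarith
      have e1 : x ^ (1 / 4 : ℝ) * x ^ (1 / 4 : ℝ) = x ^ (1 / 2 : ℝ) := by
        rw [← Real.rpow_add hx0]; norm_num
      have e2 : x ^ (1 / 2 : ℝ) * x ^ (1 / 2 : ℝ) = x := by
        rw [← Real.rpow_add hx0]; norm_num
      have e3 : x ^ (1 / 2 : ℝ) * x ^ (1 / 4 : ℝ) ≤ x := by
        rw [← Real.rpow_add hx0]
        calc x ^ ((1 / 2 : ℝ) + 1 / 4) ≤ x ^ (1 : ℝ) :=
              Real.rpow_le_rpow_of_exponent_le hx1 (by norm_num)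
          _ = x := Real.rpow_one _
      have h3 := (BX.GS N (by omega)).1 n
      have hEk := Ek_le (C₁ := C₁) (y := (N : ℝ) ^ ε)
        (τ₀ := 1 / ε * ((1 + Real.log N) / (N : ℝ) ^ ε)) (H0 := 1 + Real.log N) hC₁
        (by positivity) (X := X) (fun d hd => fixed_le hε hN hXN d hd)
        (harm X N hXN ((N : ℝ) ^ ε)) (Fp S) (Fp S') n
      have hS1 := S1_le ((N : ℝ) ^ ε) X hS hS' hSS n
      have h6 : Wt N n * g n * |H n| ≤
          Wt N n * g n * Ek C₁ ((N : ℝ) ^ ε) X (Fp S) (Fp S') n :=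
        mul_le_mul_of_nonneg_left h1 (mul_nonneg (Wt_pos N n).le (hg0 n))
      refine h6.trans ?_
      refine alg_gen (Wt N n * g n) K1 (x ^ (1 / 2 : ℝ)) (x ^ (1 / 4 : ℝ)) x (Wt N n)
        (Wt (2 * N) n) C0 ((rd ((N : ℝ) ^ ε) X (Fp S n)).card : ℝ)
        ((rd ((N : ℝ) ^ ε) X (Fp S' n)).card : ℝ) (JJ ((N : ℝ) ^ ε) S S' n) _ t0 H0 hK10
        (Wt_pos N n).le (by positivity) (Real.one_le_rpow hx1 (by norm_num)) e1 e2 e3 h2
        (by positivity) (by positivity) (hrc S hS n hna) (hrc S' hS' n hna') hJ0 ht00 hH00 ?_ hC0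
        hE0 h3
      linarith
  have hsum1 : HasSum (fun n : ℤ => if n ∈ Z0 then K2 else 0) (∑ n ∈ Z0, K2) := by
    have h1 : HasSum (fun n : ℤ => if n ∈ Z0 then K2 else 0)
        (∑ n ∈ Z0, if n ∈ Z0 then K2 else 0) :=
      hasSum_sum_of_ne_finset_zero (fun n hn => if_neg hn)
    have h2 : ∑ n ∈ Z0, (if n ∈ Z0 then K2 else 0) = ∑ n ∈ Z0, K2 :=
      Finset.sum_congr rfl fun n hn => if_pos hn
    rwa [h2] at h1
  have hsum := hsum1.add (((hJs.hasSum.mul_left (C0 ^ 2)).add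
    (hWs'.hasSum.mul_left (t0 * (2 * C0 + H0)))).mul_left (2 * K1))
  have hfin := tsum_of_norm_bounded hsum hpt
  rw [Real.norm_eq_abs] at hfin
  rw [hsplit]
  refine (abs_add_le _ _).trans ?_
  have hcardK : ∑ n ∈ Z0, K2 ≤ (2 * k + 1) * K2 := by
    rw [Finset.sum_const, nsmul_eq_mul]
    exact mul_le_mul_of_nonneg_right hZ0c hK20
  have hlast : 2 * K1 * (C0 ^ 2 * (∑' n : ℤ, Wt (2 * N) n * JJ ((N : ℝ) ^ ε) S S' n) +
      t0 * (2 * C0 + H0) * ∑' n : ℤ, Wt (2 * N) n) ≤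
      2 * K1 * (C0 ^ 2 * ((k : ℝ) ^ 2 * (((2 * M + 1 : ℕ) : ℝ) / ε *
        (4 * (2 * N / (N : ℝ) ^ ε + 1)))) + t0 * (2 * C0 + H0) * (4 * (2 * N + 1))) := by
    refine mul_le_mul_of_nonneg_left ?_ (by positivity)
    exact add_le_add (mul_le_mul_of_nonneg_left hJt (by positivity))
      (mul_le_mul_of_nonneg_left hWt' (by positivity))
  linarith

end Pool.Agent.W108.KS
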